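import Pool.Agent.MP_b2c033_nt.UC.Ch2.G21

/-! A part of the finite check. -/

namespace Pool.Agent.MP_b2c033_nt.U.Ch2

set_option maxRecDepth 100000

theorem k9_546 : Cov 0 0 1 (-1710) 3 177978515
    (tG (H3 mdM) Res 0 0 1) 546 570 :=
  (snd3 mdM [(-30, 63, .tr 13 27 [(9,3,1571), (81,13,593), (729,61,209)]),
    (-18, 29, .tr 13 405 [(45,10,749)]),
    (-12, 15, .tr 13 405 [(45,11,749)]),
    (-3, -2, .tr 13 405 [(45,10,702)])]).cov 546 24 (by decide +kernel)

theorem k13_624 : Cov 0 0 0 (-1889) 3 139314069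
    (tG (H3 mdM) Res 0 0 0) 624 628 :=
  (snd3 mdM [(-14, -20, .tr 13 0 [(176,22,403)]),
    (-14, 20, .tr 13 0 [(176,26,426)]),
    (-11, -14, .pos),
    (-11, 14, .pos),
    (-8, 0, .tr 13 256 [(4,1,2356), (8,2,1666), (16,5,1178), (32,8,889), (64,13,668)]),
    (-8, -4, .tr 31 0 []),
    (-8, -8, .tr 13 320 [(20,6,1054), (40,13,894), (80,16,562), (1280,83,158)]),
    (-8, -9, .tr 31 0 []),
    (-8, -11, .tr 31 0 []),
    (-8, -32, .tr 13 0 [(20,6,1054), (80,14,632)]),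
    (-8, 4, .tr 31 0 []),
    (-8, 8, .tr 13 320 [(20,6,1054), (40,11,745), (80,13,597), (1280,74,158)]),
    (-8, 9, .tr 31 0 []),
    (-8, 11, .tr 31 0 []),
    (-8, 32, .tr 13 0 [(20,6,1054), (80,14,562)])]).cov 624 4 (by decide +kernel)

theorem k15_813 : Cov 0 0 0 (-2430) 3 75418890
    (skA (tG (H3 mdM) Res 0 0 0)) 813 814 :=
  (snd3 mdM [(9, 0, .tr 151 576 [(36,11,838), (72,13,592), (144,19,445), (324,31,314), (432,37,272), (648,49,234), (1296,73,157), (2304,105,118), (5184,177,79)]),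
    (9, -6, .tr 61 0 [(36,11,942), (72,14,592), (144,20,471), (324,34,297), (576,47,236), (1296,75,157), (2304,107,124)]),
    (9, -9, .tr 31 0 [(1008,69,178)]),
    (9, -11, .tr 31 0 []),
    (9, -16, .tr 31 0 []),
    (9, -18, .tr 13 0 [(36,9,838), (144,23,445), (1296,83,157)]),
    (9, -19, .tr 31 0 []),
    (9, -30, .tr 31 0 []),
    (9, 6, .tr 61 0 [(36,10,890), (72,13,592), (144,19,419), (324,31,314), (576,47,236), (1296,99,166), (2304,111,118)]),
    (9, 9, .tr 31 0 [(1008,74,178)]),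
    (9, 11, .tr 31 0 []),
    (9, 16, .tr 31 0 []),
    (9, 18, .tr 13 1296 [(36,9,890), (144,25,445)]),
    (9, 19, .tr 31 0 []),
    (9, 30, .tr 31 0 [])]).covA 813 1 (by decide +kernel)

end Pool.Agent.MP_b2c033_nt.U.Ch2
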