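import Pool.Agent.MP_b2c033_nt.UC.Ch2.G34

/-! A part of the finite check. -/

namespace Pool.Agent.MP_b2c033_nt.U.Ch2

set_option maxRecDepth 100000

theorem k15_805 : Cov 0 0 0 (-2430) 3 75418890
    (skA (tG (H3 mdM) Res 0 0 0)) 805 806 :=
  (snd3 mdM [(-15, -3, .tr 31 0 []),
    (-15, -4, .tr 31 0 []),
    (-15, -7, .tr 31 0 []),
    (-15, -11, .tr 31 0 []),
    (-15, -12, .tr 31 0 []),
    (-15, -14, .tr 31 0 []),
    (-15, -16, .tr 31 0 []),
    (-15, -19, .tr 31 0 []),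
    (-15, -22, .tr 151 144 [(36,10,942), (72,17,666), (324,42,314), (432,59,227), (576,56,236), (648,58,222), (1296,78,157), (2304,105,118)]),
    (-15, -23, .tr 31 0 []),
    (-15, -26, .tr 31 0 []),
    (-15, -33, .tr 31 0 []),
    (-15, 3, .tr 31 0 []),
    (-15, 4, .tr 31 0 []),
    (-15, 7, .tr 31 0 []),
    (-15, 11, .tr 31 0 []),
    (-15, 12, .tr 31 0 []),
    (-15, 14, .tr 31 0 []),
    (-15, 16, .tr 31 0 []),
    (-15, 19, .tr 31 0 []),
    (-15, 22, .tr 151 36 [(72,13,629), (144,19,445), (324,32,297), (432,39,257), (576,47,236), (648,51,222), (1296,85,192), (2304,133,118)]),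
    (-15, 23, .tr 31 0 []),
    (-15, 26, .tr 31 0 []),
    (-15, 33, .tr 31 0 [])]).covA 805 1 (by decide +kernel)

theorem k17_552 : Cov 0 0 0 (-8160) 15 3518743
    (sk (nat_lit 25) (tG (H3 mdM) Res 0 0 0)) 552 566 :=
  (snd3 mdM []).covK (nat_lit 25) 552 14 (by decide +kernel)

theorem k21_0 : Cov 0 0 0 (-1888) 3 139314069
    (tG (H3 mdM) Res 0 0 0) 0 601 :=
  (snd3 mdM []).cov 0 601 (by decide +kernel)

end Pool.Agent.MP_b2c033_nt.U.Ch2
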