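import Pool.Agent.MP_b2c033_nt.UC.Ch2.G25

/-! A part of the finite check. -/

namespace Pool.Agent.MP_b2c033_nt.U.Ch2

set_option maxRecDepth 100000

theorem k6_646 : Cov 1 0 1 (-630) 1 2194972623
    (tG (H3 mdM) Res 1 0 1) 646 669 :=
  (snd3 mdM []).cov 646 23 (by decide +kernel)

theorem k12_1893 : Cov 0 (-1) 0 (-1890) 1 139314069
    (tG (H3 mdM) Res 0 (-1) 0) 1893 1897 :=
  (snd3 mdM [(3, -3, .tr 61 192 [(12,4,1360), (24,8,962), (48,12,726), (96,18,545), (768,63,204)]),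
    (3, -5, .tr 31 0 []),
    (3, -27, .tr 13 0 [(12,4,1360), (24,8,962), (48,11,771)]),
    (3, 0, .tr 31 0 []),
    (3, 1, .tr 13 176 [(44,9,758)]),
    (3, 5, .tr 13 0 [(4,1,2356), (8,2,1666), (16,4,1178), (32,7,889), (64,12,668), (256,30,334)]),
    (4, -4, .tr 13 80 [(20,5,1054), (40,9,795), (320,32,299), (1280,73,158)]),
    (4, -8, .tr 31 0 []),
    (4, -11, .tr 31 0 []),
    (4, -1, .tr 31 0 []),
    (4, 0, .tr 13 240 [(60,11,649)]),
    (4, 4, .tr 31 0 []),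
    (4, 6, .tr 31 0 [(240,27,365)]),
    (5, -5, .tr 31 0 []),
    (5, -1, .tr 31 0 [(208,26,370)]),
    (6, -6, .tr 31 0 [(336,35,291)])]).cov 1893 4 (by decide +kernel)

theorem k12_1897 : Cov 0 (-1) 0 (-1890) 1 139314069
    (tG (H3 mdM) Res 0 (-1) 0) 1897 1907 :=
  (snd3 mdM [(7, -3, .tr 31 0 []),
    (7, -5, .tr 31 0 []),
    (7, -7, .tr 13 0 [(28,7,891), (112,21,505)]),
    (7, -23, .tr 31 0 [(100,16,503), (400,38,267)]),
    (7, -2, .tr 31 0 []),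
    (7, 0, .tr 31 0 []),
    (7, 1, .tr 31 0 []),
    (7, 9, .tr 13 0 [(12,4,1360), (24,9,962), (48,10,771), (192,23,363), (768,53,204)]),
    (8, -8, .tr 31 0 [(12,4,1360), (24,8,962), (48,13,771), (192,29,408)]),
    (9, -9, .tr 13 0 [(240,28,345)]),
    (11, -51, .nm 2 3 0 0),
    (11, 13, .nm 2 3 0 0),
    (11, 205, .nm 2 3 0 0),
    (15, 17, .tr 13 0 [(20,5,1054), (80,14,562)]),
    (16, -180, .tr 13 0 [(12,4,1360), (48,10,726)])]).cov 1897 10 (by decide +kernel)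

theorem k13_628 : Cov 0 0 0 (-1889) 3 139314069
    (tG (H3 mdM) Res 0 0 0) 628 629 :=
  (snd3 mdM [(-5, 0, .tr 31 0 [(100,16,723), (200,24,378), (400,35,283), (1600,82,141), (6400,200,71)]),
    (-5, -2, .tr 31 0 [(28,8,950), (56,13,714), (112,18,505), (448,44,267), (1792,101,134)]),
    (-5, -3, .tr 31 0 []),
    (-5, -4, .tr 31 0 [(68,15,610), (272,34,343)]),
    (-5, -7, .tr 31 0 []),
    (-5, -10, .tr 31 0 []),
    (-5, -11, .tr 31 0 []),
    (-5, -14, .tr 31 0 []),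
    (-5, 2, .tr 31 0 [(28,8,950), (56,13,672), (112,17,505), (448,39,252), (1792,89,134)]),
    (-5, 3, .tr 31 0 []),
    (-5, 4, .tr 31 0 [(68,13,648), (272,28,324)]),
    (-5, 7, .tr 31 0 []),
    (-5, 10, .tr 31 0 []),
    (-5, 11, .tr 31 0 []),
    (-5, 14, .tr 31 0 [])]).cov 628 1 (by decide +kernel)

end Pool.Agent.MP_b2c033_nt.U.Ch2
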