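import Pool.Agent.MP_b2c033_nt.UC.Ch2.G11

/-! A part of the finite check. -/

namespace Pool.Agent.MP_b2c033_nt.U.Ch2

set_option maxRecDepth 100000

theorem k10_584 : Cov 1 (-1) 0 (-1710) 3 177978515
    (tG (H3 mdM) Res 1 (-1) 0) 584 600 :=
  (snd3 mdM []).cov 584 16 (by decide +kernel)

theorem k14_1888 : Cov 0 1 0 (-1890) 1 139314069
    (tG (H3 mdM) Res 0 1 0) 1888 1891 :=
  (snd3 mdM [(-2, -1, .tr 31 784 [(196,23,381)]),
    (-2, -2, .tr 31 128 [(4,1,2356), (8,2,1666), (16,5,1335), (32,9,889), (64,13,628), (256,31,334), (1024,72,177)]),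
    (-2, -3, .tr 31 0 []),
    (-2, 0, .tr 61 96 [(12,3,1451), (24,6,962), (48,11,726), (192,26,385), (768,54,204)]),
    (-2, 1, .tr 31 0 []),
    (-2, 8, .tr 31 0 []),
    (-1, -2, .tr 31 0 []),
    (-1, 0, .pos),
    (-1, 1, .tr 31 704 [(44,12,805), (88,15,569), (176,21,545), (2816,117,107)]),
    (-1, 15, .tr 13 0 [(20,10,1054), (80,13,527)]),
    (0, -1, .tr 31 0 []),
    (0, -2, .tr 13 320 [(20,8,1124), (40,9,795), (80,14,562), (1280,77,158)]),
    (0, -4, .tr 31 0 [(208,30,370)]),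
    (0, -12, .tr 13 240 []),
    (0, 1, .tr 31 0 []),
    (0, 2, .tr 31 0 []),
    (0, 4, .tr 13 112 [(28,7,950)])]).cov 1888 3 (by decide +kernel)

theorem k17_539 : Cov 0 0 0 (-8160) 15 3518743
    (sk (nat_lit 25) (tG (H3 mdM) Res 0 0 0)) 539 541 :=
  (snd3 mdM [(-75, -30, .tr 31 0 []),
    (-75, -110, .tr 31 0 []),
    (-75, -245, .tr 31 0 []),
    (-75, -275, .tr 31 0 []),
    (-75, -355, .tr 31 0 []),
    (-75, 30, .tr 31 0 []),
    (-75, 110, .tr 31 0 []),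
    (-75, 245, .tr 31 0 []),
    (-75, 275, .tr 31 0 []),
    (-75, 355, .tr 31 0 []),
    (-60, -145, .tr 31 0 []),
    (-60, -175, .tr 31 0 []),
    (-60, -180, .tr 31 0 []),
    (-60, -210, .tr 31 0 []),
    (-60, 145, .tr 31 0 []),
    (-60, 175, .tr 31 0 []),
    (-60, 180, .tr 31 0 []),
    (-60, 210, .tr 31 0 [])]).covK (nat_lit 25) 539 2 (by decide +kernel)

theorem k21_632 : Cov 0 0 0 (-1888) 3 139314069
    (tG (H3 mdM) Res 0 0 0) 632 662 :=
  (snd3 mdM [(8, 0, .tr 13 256 [(4,1,2356), (8,2,1666), (16,5,1178), (32,10,833), (64,11,668)]),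
    (20, 0, .tr 13 0 [(400,35,283)]),
    (32, 0, .nm 2 0 0 0)]).cov 632 30 (by decide +kernel)

end Pool.Agent.MP_b2c033_nt.U.Ch2
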