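import Pool.Agent.MP_b2c033_nt.UC.Ch2.G6

/-! A part of the finite check. -/

namespace Pool.Agent.MP_b2c033_nt.U.Ch2

set_option maxRecDepth 100000

theorem k12_1866 : Cov 0 (-1) 0 (-1890) 1 139314069
    (tG (H3 mdM) Res 0 (-1) 0) 1866 1876 :=
  (snd3 mdM [(-24, -36, .tr 31 24 [(12,4,1360), (48,10,726), (192,23,408)]),
    (-23, 51, .tr 13 768 [(12,4,1360), (24,9,1026), (48,10,726), (192,23,385)]),
    (-21, -19, .nm 2 3 0 0),
    (-20, 42, .tr 31 0 [(240,28,345)]),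
    (-19, 39, .tr 13 0 [(28,7,891), (112,19,475)]),
    (-18, -24, .tr 31 0 []),
    (-18, 36, .tr 31 0 []),
    (-17, -15, .tr 31 192 [(12,4,1360), (24,8,962), (48,12,726)]),
    (-17, 33, .tr 31 0 [(12,4,1360), (24,8,962), (48,13,771), (192,29,408)]),
    (-16, 29, .tr 13 0 [(784,55,191)]),
    (-15, -18, .tr 13 240 [(60,12,689)]),
    (-15, -25, .tr 13 0 [(20,5,1054), (80,14,632)]),
    (-15, 27, .tr 13 0 [(240,31,345)]),
    (-15, 28, .tr 31 0 [])]).cov 1866 10 (by decide +kernel)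

theorem k12_1937 : Cov 0 (-1) 0 (-1890) 1 139314069
    (tG (H3 mdM) Res 0 (-1) 0) 1937 1981 :=
  (snd3 mdM []).cov 1937 44 (by decide +kernel)

theorem k13_639 : Cov 0 0 0 (-1889) 3 139314069
    (tG (H3 mdM) Res 0 0 0) 639 662 :=
  (snd3 mdM [(64, 0, .nm 2 0 0 0)]).cov 639 23 (by decide +kernel)

theorem k15_820 : Cov 0 0 0 (-2430) 3 75418890
    (skA (tG (H3 mdM) Res 0 0 0)) 820 829 :=
  (snd3 mdM [(36, 0, .tr 13 0 [(144,29,471), (1296,95,192)]),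
    (36, -48, .tr 13 0 [(144,22,445)]),
    (36, 48, .tr 13 0 [(144,21,445)]),
    (45, -18, .nm 2 3 1 4),
    (45, 18, .tr 13 1296 [(144,20,445)]),
    (48, -128, .nm 2 0 0 0),
    (48, 128, .nm 2 0 0 0),
    (54, 0, .tr 13 0 [(144,19,602)]),
    (54, -54, .tr 13 0 [(144,19,445)]),
    (54, 54, .tr 13 0 [(144,20,419)])]).covA 820 9 (by decide +kernel)

end Pool.Agent.MP_b2c033_nt.U.Ch2
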