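import Pool.Agent.MP_b2c033_nt.UC.Ch2.G5

/-! A part of the finite check. -/

namespace Pool.Agent.MP_b2c033_nt.U.Ch2

set_option maxRecDepth 100000

theorem k1_0 : Cov 0 0 1 (-632) 3 2194972623
    (tG (H3 mdM) Res 0 0 1) 0 211 :=
  (snd3 mdM [(-14, 20, .tr 31 0 []),
    (-8, -5, .tr 31 0 []),
    (-8, -8, .tr 31 0 []),
    (-8, -9, .tr 31 0 []),
    (-8, -10, .tr 31 0 []),
    (-8, 5, .tr 31 0 []),
    (-8, 7, .tr 31 0 []),
    (-8, 10, .tr 31 0 []),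
    (-2, -1, .tr 31 0 []),
    (-2, -2, .tr 31 0 []),
    (-2, -4, .tr 31 0 []),
    (-2, -6, .tr 31 0 []),
    (-2, -7, .tr 31 0 []),
    (-2, 1, .tr 31 0 []),
    (-2, 3, .tr 31 0 []),
    (-2, 4, .tr 31 0 []),
    (-2, 8, .tr 31 0 [])]).cov 0 211 (by decide +kernel)

theorem k9_571 : Cov 0 0 1 (-1710) 3 177978515
    (tG (H3 mdM) Res 0 0 1) 571 600 :=
  (snd3 mdM []).cov 571 29 (by decide +kernel)

theorem k13_629 : Cov 0 0 0 (-1889) 3 139314069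
    (tG (H3 mdM) Res 0 0 0) 629 631 :=
  (snd3 mdM [(-2, 0, .tr 61 256 [(4,1,2356), (8,2,1666), (16,5,1178), (32,10,833), (64,11,668), (128,17,444), (1024,65,177)]),
    (-2, -1, .pos),
    (-2, -2, .tr 31 0 [(76,17,577), (304,36,324)]),
    (-2, -3, .tr 31 0 []),
    (-2, -4, .tr 13 0 [(20,6,1054), (40,11,844), (80,19,597), (320,48,316), (1280,105,167)]),
    (-2, 1, .pos),
    (-2, 2, .tr 31 0 [(76,15,613), (304,31,306)]),
    (-2, 3, .tr 31 0 []),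
    (-2, 4, .tr 13 0 [(20,6,1054), (40,13,844), (80,15,562), (320,30,299), (1280,71,158)]),
    (1, 0, .pos),
    (1, -1, .tr 31 0 []),
    (1, -2, .tr 61 112 [(28,8,891), (56,14,714), (448,44,252)]),
    (1, -7, .tr 31 0 []),
    (1, -10, .tr 31 0 []),
    (1, 1, .tr 31 0 []),
    (1, 2, .tr 61 56 [(28,8,891), (112,19,505), (448,39,252)]),
    (1, 7, .tr 31 0 []),
    (1, 10, .tr 31 0 [])]).cov 629 2 (by decide +kernel)

theorem k14_1822 : Cov 0 1 0 (-1890) 1 139314069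
    (tG (H3 mdM) Res 0 1 0) 1822 1847 :=
  (snd3 mdM [(-66, -230, .tr 13 0 [(20,10,1194), (80,13,562)]),
    (-64, -220, .tr 31 48 [(12,3,1451), (24,6,1090), (192,23,385)]),
    (-63, 173, .tr 31 0 []),
    (-53, -141, .nm 2 1 0 0),
    (-53, 115, .nm 2 1 0 0),
    (-46, 106, .tr 31 0 [])]).cov 1822 25 (by decide +kernel)

end Pool.Agent.MP_b2c033_nt.U.Ch2
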