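import Pool.Agent.MP_b2c033_nt.UC.Ch2.G22

/-! A part of the finite check. -/

namespace Pool.Agent.MP_b2c033_nt.U.Ch2

set_option maxRecDepth 100000

theorem k4_0 : Cov 1 (-1) 1 (-630) 3 2194972623
    (tG (H3 mdM) Res 1 (-1) 1) 0 224 :=
  (snd3 mdM [(-6, -4, .tr 13 17 []),
    (0, -1, .tr 31 0 []),
    (0, -4, .tr 31 0 []),
    (0, 0, .tr 31 0 [])]).cov 0 224 (by decide +kernel)

theorem k8_620 : Cov 1 1 1 (-630) 1 2194972623
    (tG (H3 mdM) Res 1 1 1) 620 637 :=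
  (snd3 mdM [(-10, -10, .tr 13 15 []),
    (-8, -12, .tr 31 0 []),
    (-7, 4, .tr 31 0 []),
    (-5, -6, .tr 31 0 []),
    (-5, 2, .pos),
    (-4, 0, .tr 31 0 []),
    (-3, -2, .tr 31 0 []),
    (-3, 1, .tr 13 50 []),
    (-3, 2, .tr 31 0 []),
    (-2, -2, .tr 31 0 []),
    (-2, 0, .tr 31 0 []),
    (-1, 0, .tr 31 0 []),
    (0, 0, .pos),
    (0, 4, .tr 31 0 []),
    (1, 0, .tr 31 0 []),
    (2, 0, .tr 31 0 []),
    (3, 2, .tr 31 0 []),
    (3, 4, .tr 31 0 [])]).cov 620 17 (by decide +kernel)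

theorem k15_804 : Cov 0 0 0 (-2430) 3 75418890
    (skA (tG (H3 mdM) Res 0 0 0)) 804 805 :=
  (snd3 mdM [(-18, 0, .tr 13 0 [(36,9,838), (144,22,471), (1296,83,157)]),
    (-18, -7, .tr 31 0 []),
    (-18, -12, .tr 31 0 [(720,56,222)]),
    (-18, -14, .tr 31 0 []),
    (-18, -18, .tr 31 0 []),
    (-18, -19, .tr 31 0 []),
    (-18, -23, .tr 31 0 []),
    (-18, -24, .tr 31 0 [(36,12,838), (72,13,629), (144,19,445), (324,31,297), (1296,76,157)]),
    (-18, -26, .tr 31 0 []),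
    (-18, -28, .tr 31 0 []),
    (-18, -30, .tr 31 0 [(36,9,785), (72,14,592), (144,21,471), (1296,76,157)]),
    (-18, -32, .tr 31 0 []),
    (-18, -33, .tr 61 0 [(720,82,222)]),
    (-18, -36, .tr 31 0 [(36,12,785), (144,24,445), (1296,82,157)]),
    (-18, -58, .tr 31 0 []),
    (-18, 7, .tr 31 0 []),
    (-18, 12, .tr 31 0 [(720,58,211)]),
    (-18, 14, .tr 31 0 []),
    (-18, 18, .tr 31 0 []),
    (-18, 19, .tr 31 0 []),
    (-18, 23, .tr 31 0 []),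
    (-18, 24, .tr 31 0 [(36,13,838), (72,14,666), (144,23,445), (324,38,314), (1296,91,157)]),
    (-18, 26, .tr 31 0 []),
    (-18, 28, .tr 31 0 []),
    (-18, 30, .tr 31 0 [(36,9,838), (72,14,629), (144,22,471), (1296,81,157)]),
    (-18, 32, .tr 31 0 []),
    (-18, 33, .tr 61 0 [(720,60,211)]),
    (-18, 36, .tr 31 0 [(36,11,838), (144,19,419), (1296,70,157)]),
    (-18, 58, .tr 31 0 [])]).covA 804 1 (by decide +kernel)

end Pool.Agent.MP_b2c033_nt.U.Ch2
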