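import Pool.Agent.MP_b2c033_nt.UC.Ch2.G27
import Pool.Agent.MP_b2c033_nt.UC.Ch2.G15
import Pool.Agent.MP_b2c033_nt.UC.Ch2.G10
import Pool.Agent.MP_b2c033_nt.UC.Ch2.G16
import Pool.Agent.MP_b2c033_nt.UC.Ch2.G8
import Pool.Agent.MP_b2c033_nt.UC.Ch2.G12
import Pool.Agent.MP_b2c033_nt.UC.Ch2.G28
import Pool.Agent.MP_b2c033_nt.UC.Ch2.G29
import Pool.Agent.MP_b2c033_nt.UC.TAll
import Pool.Agent.MP_b2c033_nt.UC.MidV0
import Pool.Agent.MP_b2c033_nt.UC.MidV1
import Pool.Agent.MP_b2c033_nt.UC.MidV2
import Pool.Agent.MP_b2c033_nt.UC.MidV3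
import Pool.Agent.MP_b2c033_nt.UC.MidV4
import Pool.Agent.MP_b2c033_nt.UC.MidV5
import Pool.Agent.MP_b2c033_nt.UC.MidV6
import Pool.Agent.MP_b2c033_nt.UC.MidV7
import Pool.Agent.MP_b2c033_nt.UC.MidV8
import Pool.Agent.MP_b2c033_nt.UC.MidV9
import Pool.Agent.MP_b2c033_nt.UC.MidV10
import Pool.Agent.MP_b2c033_nt.UC.MidS

/-! The finite check. -/

namespace Pool.Agent.MP_b2c033_nt.U

open Ch2 in
theorem covs2 : Covs2 (tG (H3 mdM) Res) where
  c0 := k0_0.join <|
    k0_620.join <|
    k0_632
  c1 := k1_0.join <|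
    k1_211
  c2 := k2_0.join <|
    k2_622.join <|
    k2_632
  c3 := k3_0.join <|
    k3_213
  c4 := k4_0
  c5 := k5_0.join <|
    k5_623.join <|
    k5_633
  c6 := k6_0.join <|
    k6_623.join <|
    k6_646
  c7 := k7_0.join <|
    k7_624.join <|
    k7_635
  c8 := k8_0.join <|
    k8_620.join <|
    k8_637
  c9 := k9_0.join <|
    k9_546.join <|
    k9_570.join <|
    k9_571
  c10 := k10_0.join <|
    k10_545.join <|
    k10_570.join <|
    k10_584
  c11 := k11_0.join <|
    k11_547.join <|
    k11_569.join <|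
    k11_588
  c12 := k12_0.join <|
    k12_1133.join <|
    k12_1749.join <|
    k12_1796.join <|
    k12_1822.join <|
    k12_1847.join <|
    k12_1866.join <|
    k12_1876.join <|
    k12_1882.join <|
    k12_1885.join <|
    k12_1887.join <|
    k12_1888.join <|
    k12_1891.join <|
    k12_1893.join <|
    k12_1897.join <|
    k12_1907.join <|
    k12_1937.join <|
    k12_1981
  c13 := k13_0.join <|
    k13_599.join <|
    k13_624.join <|
    k13_628.join <|
    k13_629.join <|
    k13_631.join <|
    k13_639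
  c14 := k14_0.join <|
    k14_1133.join <|
    k14_1749.join <|
    k14_1796.join <|
    k14_1822.join <|
    k14_1847.join <|
    k14_1866.join <|
    k14_1877.join <|
    k14_1882.join <|
    k14_1885.join <|
    k14_1887.join <|
    k14_1888.join <|
    k14_1891.join <|
    k14_1893.join <|
    k14_1897.join <|
    k14_1907.join <|
    k14_1937.join <|
    k14_1981
  c15 := k15_0.join <|
    k15_757.join <|
    k15_773.join <|
    k15_783.join <|
    k15_791.join <|
    k15_794.join <|
    k15_798.join <|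
    k15_799.join <|
    k15_800.join <|
    k15_801.join <|
    k15_802.join <|
    k15_803.join <|
    k15_804.join <|
    k15_805.join <|
    k15_806.join <|
    k15_807.join <|
    k15_808.join <|
    k15_809.join <|
    k15_810.join <|
    k15_811.join <|
    k15_812.join <|
    k15_813.join <|
    k15_814.join <|
    k15_815.join <|
    k15_816.join <|
    k15_818.join <|
    k15_820.join <|
    k15_829
  c16 := k16_0.join <|
    k16_217.join <|
    k16_224.join <|
    k16_226.join <|
    k16_227.join <|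
    k16_232
  c17 := k17_0.join <|
    k17_519.join <|
    k17_529.join <|
    k17_533.join <|
    k17_537.join <|
    k17_538.join <|
    k17_539.join <|
    k17_541.join <|
    k17_542.join <|
    k17_543.join <|
    k17_544.join <|
    k17_545.join <|
    k17_546.join <|
    k17_548.join <|
    k17_552
  c18 := k18_0.join <|
    k18_212
  c19 := k19_0
  c20 := k20_0.join <|
    k20_213
  c21 := k21_0.join <|
    k21_601.join <|
    k21_622.join <|
    k21_628.join <|
    k21_632

theorem mdM_sound : MdS mdM := fun W Ω ρ N b hs _ v hv h =>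
  mid_of c_D01 c_D3 c_D4 c_St c_H5 t_tN t_enN t_kill (TM := TM) (fun s₂ h₂ s₃ h₃ => by
    interval_cases s₂ <;> interval_cases s₃
    exacts [okM_00, okM_01, okM_02, okM_03, okM_04, okM_05, okM_10, okM_11, okM_12, okM_13, okM_14, okM_15, okM_20, okM_21, okM_22, okM_23, okM_24, okM_25, okM_30, okM_31, okM_32, okM_33, okM_34, okM_35, okM_40, okM_41, okM_42, okM_43, okM_44, okM_45]) W Ω ρ N b hs v hv h

theorem s_Check2 : S_Check2 posL torL :=
  check2_of_res fun _ _ _ _ _ hs =>
    res_of_covs2 c_St c_Thr ⟨t_quick, t_fast, t_full, mdM_sound⟩ covs2 hs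

end Pool.Agent.MP_b2c033_nt.U
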