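import Pool.Agent.MP_b2c033_nt.UC.Ch2.Spl

/-! A part of the finite check. -/

namespace Pool.Agent.MP_b2c033_nt.U.Ch2

set_option maxRecDepth 100000

def ek15_810 : List (ℤ × ℤ × Ct) :=
  [(0, -1, .pos),
    (0, -2, .tr 251 1728 [(36,11,838), (72,15,592), (108,18,514), (144,21,445), (216,27,363), (288,31,333), (324,33,314), (432,39,272), (576,46,223), (648,49,222), (1296,73,157), (2304,103,118), (2592,110,111), (2916,118,128), (5184,169,79), (6912,203,68), (9216,243,59), (11664,281,64), (20736,399,41)]),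
    (0, -3, .tr 101 0 [(36,10,890), (72,21,555), (108,22,514), (144,24,445), (324,36,314), (432,43,272), (576,52,236), (648,57,222), (1296,88,157), (2304,115,118), (5184,189,79)]),
    (0, -4, .tr 101 432 [(36,13,890), (72,13,629), (108,16,484), (144,19,419), (324,30,314), (576,43,236), (1296,73,157), (2304,108,118)]),
    (0, -6, .tr 101 0 [(36,18,838), (72,13,629), (144,19,471), (324,33,297), (432,40,272), (576,49,236), (1296,93,157), (2304,114,118)]),
    (0, -8, .tr 151 576 [(36,10,942), (72,17,629), (144,28,445), (324,46,314), (432,56,272), (648,74,222), (1296,102,166), (2304,137,118)]),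
    (0, -9, .tr 101 0 [(36,11,838), (72,15,592), (144,21,445), (324,33,314), (432,39,272), (576,46,236), (648,49,222), (1296,76,157), (2304,112,118), (5184,187,79)]),
    (0, -12, .tr 101 0 [(36,12,838), (72,14,629), (144,21,419), (324,34,314), (432,42,272), (576,51,288), (648,56,272), (1296,87,157), (2304,112,118), (5184,176,79)]),
    (0, -16, .tr 151 432 [(36,11,838), (72,15,629), (144,22,445), (324,40,314), (576,56,236), (648,58,222), (1296,83,157), (2304,117,118)]),
    (0, -18, .tr 31 0 [(36,13,890), (72,13,629), (144,19,419), (1296,81,157)]),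
    (0, -24, .tr 13 0 [(36,10,890), (144,27,445), (1296,84,192)]),
    (0, -26, .tr 31 0 []),
    (0, -27, .tr 31 36 [(144,19,445), (324,32,297), (1296,85,192)]),
    (0, -32, .tr 13 0 [(36,13,890), (144,19,445), (1296,88,157)]),
    (0, -36, .tr 13 0 [(36,10,942), (144,27,445), (1296,81,157)]),
    (0, -48, .nm 2 0 0 4),
    (0, -54, .tr 31 0 [(36,12,838), (144,20,445), (1296,76,157)]),
    (0, -64, .nm 2 0 0 0),
    (0, -72, .tr 13 0 [(36,11,838), (144,22,471), (1296,103,157)]),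
    (0, -81, .tr 13 0 [(144,19,445)]),
    (0, -96, .tr 31 0 [(144,20,445), (1296,89,166)]),
    (0, -128, .nm 2 0 0 0),
    (0, -243, .tr 13 0 [(144,20,445)]),
    (0, -324, .tr 13 0 [(144,22,445)]),
    (0, 1, .pos),
    (0, 2, .tr 251 1728 [(36,12,838), (72,14,629), (108,17,514), (144,20,445), (216,26,363), (288,30,333), (324,32,314), (432,39,257), (576,46,236), (648,50,222), (1296,76,157), (2304,107,144), (2592,115,111), (2916,123,105), (5184,171,79), (6912,202,68), (9216,239,59), (11664,274,64), (20736,387,41)]),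
    (0, 3, .tr 151 0 [(36,13,890), (72,13,629), (108,16,514), (144,19,445), (324,32,297), (432,39,257), (576,48,236), (648,52,222), (1296,89,157), (2304,149,118)]),
    (0, 4, .tr 101 108 [(36,10,890), (72,19,666), (144,29,471), (324,39,314), (432,43,272), (576,49,236), (1296,75,157), (2304,104,118)]),
    (0, 6, .tr 101 0 [(36,10,942), (72,17,666), (144,26,471), (324,36,314), (432,42,272), (576,50,236), (1296,96,157), (2304,116,144)]),
    (0, 8, .tr 151 576 [(36,18,890), (72,13,629), (144,19,445), (324,31,297), (432,37,272), (648,49,234), (1296,73,157), (2304,104,118)]),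
    (0, 9, .tr 101 0 [(36,12,838), (72,14,629), (144,20,445), (324,32,297), (432,38,257), (576,45,223), (648,48,210), (1296,73,157), (2304,104,118), (5184,172,79)]),
    (0, 12, .tr 101 0 [(36,11,838), (72,15,629), (144,22,445), (324,35,314), (432,42,257), (576,49,236), (648,52,222), (1296,76,157), (2304,104,118), (5184,167,79)]),
    (0, 16, .nm 2 0 0 4),
    (0, 18, .tr 31 0 [(36,10,890), (72,20,666), (144,26,445), (1296,75,157)]),
    (0, 24, .tr 13 0 [(36,13,890), (144,19,419), (1296,71,157)]),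
    (0, 26, .tr 31 0 []),
    (0, 27, .tr 31 144 [(36,10,942), (324,42,314), (1296,78,157)]),
    (0, 32, .tr 13 0 [(36,10,890), (144,23,471), (1296,86,157)]),
    (0, 36, .tr 13 0 [(36,18,942), (144,19,445), (1296,76,157)]),
    (0, 48, .tr 31 0 [(36,10,942), (144,25,445)]),
    (0, 54, .tr 31 0 [(36,11,838), (144,21,445), (1296,73,157)]),
    (0, 64, .nm 2 0 0 0),
    (0, 72, .tr 13 0 [(36,12,838), (144,21,445), (1296,91,157)]),
    (0, 81, .tr 13 0 [(144,24,445)]),
    (0, 96, .tr 31 0 [(144,22,445), (1296,80,157)]),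
    (0, 128, .nm 2 0 0 0),
    (0, 243, .tr 13 0 [(144,21,445)]),
    (0, 324, .tr 13 0 [(144,21,419)])]

theorem k15_810_c0 : Cov 0 0 0 (-2430) 3 75418890
    (sr (nat_lit 4) (nat_lit 0) (ss (nat_lit 0) (skA (tG (H3 mdM) Res 0 0 0)))) 810 811 :=
  (snd3 mdM ek15_810).scovA (nat_lit 4) (nat_lit 0) (nat_lit 0) 810 1 (by decide +kernel)

theorem k15_810_c1 : Cov 0 0 0 (-2430) 3 75418890
    (sr (nat_lit 4) (nat_lit 0) (ss (nat_lit 1) (skA (tG (H3 mdM) Res 0 0 0)))) 810 811 :=
  (snd3 mdM ek15_810).scovA (nat_lit 4) (nat_lit 0) (nat_lit 1) 810 1 (by decide +kernel)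

theorem k15_810_c2 : Cov 0 0 0 (-2430) 3 75418890
    (sr (nat_lit 4) (nat_lit 1) (ss (nat_lit 0) (skA (tG (H3 mdM) Res 0 0 0)))) 810 811 :=
  (snd3 mdM ek15_810).scovA (nat_lit 4) (nat_lit 1) (nat_lit 0) 810 1 (by decide +kernel)

theorem k15_810_c3 : Cov 0 0 0 (-2430) 3 75418890
    (sr (nat_lit 4) (nat_lit 1) (ss (nat_lit 1) (skA (tG (H3 mdM) Res 0 0 0)))) 810 811 :=
  (snd3 mdM ek15_810).scovA (nat_lit 4) (nat_lit 1) (nat_lit 1) 810 1 (by decide +kernel)

theorem k15_810_c4 : Cov 0 0 0 (-2430) 3 75418890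
    (sr (nat_lit 4) (nat_lit 2) (ss (nat_lit 0) (skA (tG (H3 mdM) Res 0 0 0)))) 810 811 :=
  (snd3 mdM ek15_810).scovA (nat_lit 4) (nat_lit 2) (nat_lit 0) 810 1 (by decide +kernel)

theorem k15_810_c5 : Cov 0 0 0 (-2430) 3 75418890
    (sr (nat_lit 4) (nat_lit 2) (ss (nat_lit 1) (skA (tG (H3 mdM) Res 0 0 0)))) 810 811 :=
  (snd3 mdM ek15_810).scovA (nat_lit 4) (nat_lit 2) (nat_lit 1) 810 1 (by decide +kernel)

theorem k15_810_c6 : Cov 0 0 0 (-2430) 3 75418890
    (sr (nat_lit 4) (nat_lit 3) (ss (nat_lit 0) (skA (tG (H3 mdM) Res 0 0 0)))) 810 811 :=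
  (snd3 mdM ek15_810).scovA (nat_lit 4) (nat_lit 3) (nat_lit 0) 810 1 (by decide +kernel)

theorem k15_810_c7 : Cov 0 0 0 (-2430) 3 75418890
    (sr (nat_lit 4) (nat_lit 3) (ss (nat_lit 1) (skA (tG (H3 mdM) Res 0 0 0)))) 810 811 :=
  (snd3 mdM ek15_810).scovA (nat_lit 4) (nat_lit 3) (nat_lit 1) 810 1 (by decide +kernel)

theorem k15_810 : Cov 0 0 0 (-2430) 3 75418890
    (skA (tG (H3 mdM) Res 0 0 0)) 810 811 :=
  Cov.cls 4 (by decide) fun i hi => by
    interval_cases i
    exacts [k15_810_c0.sgn k15_810_c1, k15_810_c2.sgn k15_810_c3, k15_810_c4.sgn k15_810_c5, k15_810_c6.sgn k15_810_c7]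

end Pool.Agent.MP_b2c033_nt.U.Ch2
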