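import Pool.Agent.MP_b2c033_nt.UC.Ch2.Spl

/-! A part of the finite check. -/

namespace Pool.Agent.MP_b2c033_nt.U.Ch2

set_option maxRecDepth 100000

def ek15_809 : List (ℤ × ℤ × Ct) :=
  [(-3, 0, .tr 101 576 [(36,9,838), (72,14,629), (108,18,514), (144,22,445), (324,37,314), (432,47,272), (648,64,222), (1296,83,157), (2304,114,118)]),
    (-3, -1, .tr 61 648 [(36,11,890), (72,13,629), (108,16,514), (144,19,445), (288,29,333), (324,32,297), (432,38,257), (576,47,249), (1296,74,157), (2304,104,118), (5184,173,79), (9216,261,62), (11664,327,55), (20736,400,41)]),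
    (-3, -3, .tr 101 0 [(180,22,421), (720,55,211), (6480,202,70)]),
    (-3, -4, .tr 101 5184 [(36,14,785), (72,14,629), (108,18,484), (144,21,445), (288,32,315), (324,34,314), (432,41,257), (576,49,223), (648,52,222), (1296,79,157), (2304,110,118), (9216,245,59), (11664,282,55), (20736,395,41)]),
    (-3, -6, .tr 101 0 [(36,12,942), (72,14,666), (144,21,471), (324,36,314), (432,44,272), (576,54,236), (648,60,222), (1296,87,157), (2304,115,118), (5184,181,79)]),
    (-3, -7, .tr 101 0 [(180,23,398), (720,58,211), (6480,208,86)]),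
    (-3, -8, .tr 31 0 [(720,55,211)]),
    (-3, -9, .tr 31 0 []),
    (-3, -10, .tr 13 0 [(36,9,838), (72,15,629), (144,26,445), (1296,72,157)]),
    (-3, -11, .tr 31 0 []),
    (-3, -14, .tr 61 1296 [(36,13,890), (72,14,592), (144,20,445), (324,33,297), (576,46,236)]),
    (-3, -16, .tr 31 0 [(1008,67,178)]),
    (-3, -18, .tr 31 0 []),
    (-3, -22, .tr 31 0 []),
    (-3, -24, .tr 31 0 []),
    (-3, -28, .tr 31 0 []),
    (-3, -33, .tr 31 0 []),
    (-3, -34, .tr 31 0 [(36,12,890), (144,24,445)]),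
    (-3, -37, .tr 31 0 []),
    (-3, -42, .tr 31 0 []),
    (-3, 1, .tr 61 1296 [(36,13,785), (72,14,629), (108,18,484), (144,21,445), (288,30,333), (324,33,297), (432,38,272), (576,45,236), (648,48,222), (2304,103,118), (5184,171,79), (9216,245,72), (11664,284,55), (20736,403,41)]),
    (-3, 3, .tr 101 0 [(180,23,398), (720,51,211), (6480,198,86)]),
    (-3, 4, .tr 101 5184 [(36,12,838), (72,13,629), (108,16,514), (144,19,471), (288,30,315), (324,33,297), (432,39,272), (576,48,236), (648,52,222), (1296,83,157), (2304,125,118), (9216,287,62), (11664,315,55), (20736,410,41)]),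
    (-3, 6, .tr 101 0 [(36,11,890), (72,13,629), (144,19,445), (324,32,297), (432,39,257), (576,47,223), (648,50,222), (1296,76,157), (2304,105,118), (5184,169,79)]),
    (-3, 7, .tr 101 0 [(180,23,398), (720,52,211), (6480,195,86)]),
    (-3, 8, .tr 31 0 [(720,57,211)]),
    (-3, 9, .tr 31 0 []),
    (-3, 10, .tr 13 0 [(36,9,785), (72,14,592), (144,20,445), (1296,93,157)]),
    (-3, 11, .tr 31 0 []),
    (-3, 14, .tr 61 0 [(36,13,890), (72,14,592), (144,19,602), (324,31,297), (576,45,249), (1296,73,157)]),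
    (-3, 16, .tr 31 0 [(1008,66,178)]),
    (-3, 18, .tr 31 0 []),
    (-3, 22, .tr 31 0 []),
    (-3, 24, .tr 31 0 []),
    (-3, 28, .tr 31 0 []),
    (-3, 33, .tr 31 0 []),
    (-3, 34, .tr 31 0 [(36,11,890), (144,19,419)]),
    (-3, 37, .tr 31 0 []),
    (-3, 42, .tr 31 0 [])]

theorem k15_809_c0 : Cov 0 0 0 (-2430) 3 75418890
    (sr (nat_lit 4) (nat_lit 0) (ss (nat_lit 0) (skA (tG (H3 mdM) Res 0 0 0)))) 809 810 :=
  (snd3 mdM ek15_809).scovA (nat_lit 4) (nat_lit 0) (nat_lit 0) 809 1 (by decide +kernel)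

theorem k15_809_c1 : Cov 0 0 0 (-2430) 3 75418890
    (sr (nat_lit 4) (nat_lit 0) (ss (nat_lit 1) (skA (tG (H3 mdM) Res 0 0 0)))) 809 810 :=
  (snd3 mdM ek15_809).scovA (nat_lit 4) (nat_lit 0) (nat_lit 1) 809 1 (by decide +kernel)

theorem k15_809_c2 : Cov 0 0 0 (-2430) 3 75418890
    (sr (nat_lit 4) (nat_lit 1) (ss (nat_lit 0) (skA (tG (H3 mdM) Res 0 0 0)))) 809 810 :=
  (snd3 mdM ek15_809).scovA (nat_lit 4) (nat_lit 1) (nat_lit 0) 809 1 (by decide +kernel)

theorem k15_809_c3 : Cov 0 0 0 (-2430) 3 75418890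
    (sr (nat_lit 4) (nat_lit 1) (ss (nat_lit 1) (skA (tG (H3 mdM) Res 0 0 0)))) 809 810 :=
  (snd3 mdM ek15_809).scovA (nat_lit 4) (nat_lit 1) (nat_lit 1) 809 1 (by decide +kernel)

theorem k15_809_c4 : Cov 0 0 0 (-2430) 3 75418890
    (sr (nat_lit 4) (nat_lit 2) (ss (nat_lit 0) (skA (tG (H3 mdM) Res 0 0 0)))) 809 810 :=
  (snd3 mdM ek15_809).scovA (nat_lit 4) (nat_lit 2) (nat_lit 0) 809 1 (by decide +kernel)

theorem k15_809_c5 : Cov 0 0 0 (-2430) 3 75418890
    (sr (nat_lit 4) (nat_lit 2) (ss (nat_lit 1) (skA (tG (H3 mdM) Res 0 0 0)))) 809 810 :=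
  (snd3 mdM ek15_809).scovA (nat_lit 4) (nat_lit 2) (nat_lit 1) 809 1 (by decide +kernel)

theorem k15_809_c6 : Cov 0 0 0 (-2430) 3 75418890
    (sr (nat_lit 4) (nat_lit 3) (ss (nat_lit 0) (skA (tG (H3 mdM) Res 0 0 0)))) 809 810 :=
  (snd3 mdM ek15_809).scovA (nat_lit 4) (nat_lit 3) (nat_lit 0) 809 1 (by decide +kernel)

theorem k15_809_c7 : Cov 0 0 0 (-2430) 3 75418890
    (sr (nat_lit 4) (nat_lit 3) (ss (nat_lit 1) (skA (tG (H3 mdM) Res 0 0 0)))) 809 810 :=
  (snd3 mdM ek15_809).scovA (nat_lit 4) (nat_lit 3) (nat_lit 1) 809 1 (by decide +kernel)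

theorem k15_809 : Cov 0 0 0 (-2430) 3 75418890
    (skA (tG (H3 mdM) Res 0 0 0)) 809 810 :=
  Cov.cls 4 (by decide) fun i hi => by
    interval_cases i
    exacts [k15_809_c0.sgn k15_809_c1, k15_809_c2.sgn k15_809_c3, k15_809_c4.sgn k15_809_c5, k15_809_c6.sgn k15_809_c7]

end Pool.Agent.MP_b2c033_nt.U.Ch2
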