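import Pool.Agent.MP_b2c033_nt.UC.Ch2.G18

/-! A part of the finite check. -/

namespace Pool.Agent.MP_b2c033_nt.U.Ch2

set_option maxRecDepth 100000

theorem k13_0 : Cov 0 0 0 (-1889) 3 139314069
    (tG (H3 mdM) Res 0 0 0) 0 599 :=
  (snd3 mdM [(-176, -896, .nm 2 0 0 0),
    (-176, 896, .nm 2 0 0 0),
    (-107, -426, .tr 13 0 [(20,6,1054), (80,15,562)]),
    (-107, 426, .tr 13 80 [(20,6,1054)])]).cov 0 599 (by decide +kernel)

theorem k14_1887 : Cov 0 1 0 (-1890) 1 139314069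
    (tG (H3 mdM) Res 0 1 0) 1887 1888 :=
  (snd3 mdM [(-3, -2, .tr 13 200 [(100,15,503), (400,36,267), (1600,96,141), (6400,191,71)]),
    (-3, -3, .tr 13 0 [(12,3,1451), (24,6,1026), (48,11,771), (96,19,577), (192,32,408), (768,72,204), (3072,137,125)]),
    (-3, -4, .tr 31 0 []),
    (-3, -7, .tr 31 0 [(100,19,534), (400,44,346)]),
    (-3, -1, .tr 31 0 []),
    (-3, 0, .tr 31 0 []),
    (-3, 1, .tr 61 256 [(4,1,2356), (8,2,1666), (16,6,1178), (32,8,889), (64,11,668), (128,18,444), (1024,65,177)]),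
    (-3, 2, .tr 31 0 []),
    (-3, 3, .tr 101 4800 [(300,33,308), (1200,72,163)]),
    (-3, 6, .tr 31 0 []),
    (-3, 9, .tr 13 768 [(12,3,1451), (24,6,1026), (48,13,726), (192,23,363)])]).cov 1887 1 (by decide +kernel)

theorem k15_801 : Cov 0 0 0 (-2430) 3 75418890
    (skA (tG (H3 mdM) Res 0 0 0)) 801 802 :=
  (snd3 mdM [(-27, 0, .tr 31 0 []),
    (-27, -18, .tr 13 0 [(36,10,838), (144,24,471), (1296,75,157)]),
    (-27, -27, .tr 13 1296 [(36,10,838), (144,24,445)]),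
    (-27, -42, .tr 61 0 [(36,10,890), (144,22,445), (324,33,314), (576,46,223), (1296,73,157), (2304,103,144)]),
    (-27, -46, .tr 31 0 [(720,70,211)]),
    (-27, -56, .tr 31 0 []),
    (-27, -58, .tr 31 0 [(1008,84,178)]),
    (-27, -63, .tr 31 0 []),
    (-27, -108, .tr 13 0 [(144,20,471), (1296,78,157)]),
    (-27, -162, .tr 13 0 [(144,20,445)]),
    (-27, 18, .tr 13 0 [(36,11,785), (144,22,445), (1296,81,157)]),
    (-27, 27, .tr 31 0 [(36,11,838), (144,20,419)]),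
    (-27, 42, .tr 61 0 [(36,10,890), (144,23,445), (324,35,314), (576,48,236), (1296,75,157), (2304,103,118)]),
    (-27, 46, .tr 31 0 [(720,52,211)]),
    (-27, 56, .tr 31 0 []),
    (-27, 58, .tr 31 0 [(1008,65,178)]),
    (-27, 63, .tr 31 0 []),
    (-27, 108, .tr 13 0 [(144,29,471), (1296,75,157)]),
    (-27, 162, .tr 13 0 [(144,24,445)])]).covA 801 1 (by decide +kernel)

end Pool.Agent.MP_b2c033_nt.U.Ch2
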