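import Pool.Agent.MP_b2c033_nt.UC.Ch2.G2

/-! A part of the finite check. -/

namespace Pool.Agent.MP_b2c033_nt.U.Ch2

set_option maxRecDepth 100000

theorem k3_213 : Cov 1 (-1) 0 (-632) 3 2194972623
    (tG (H3 mdM) Res 1 (-1) 0) 213 224 :=
  (snd3 mdM []).cov 213 11 (by decide +kernel)

theorem k14_1877 : Cov 0 1 0 (-1890) 1 139314069
    (tG (H3 mdM) Res 0 1 0) 1877 1882 :=
  (snd3 mdM [(-13, -21, .tr 13 256 [(4,1,2356), (8,2,1666), (16,6,1178), (32,8,889), (64,11,668)]),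
    (-13, -23, .tr 31 0 []),
    (-13, -37, .tr 31 0 []),
    (-13, -85, .tr 13 0 [(12,3,1451), (48,11,726)]),
    (-13, 3, .tr 13 0 [(400,41,283)]),
    (-13, 7, .tr 31 0 []),
    (-13, 11, .tr 13 0 [(12,3,1451), (24,6,1026), (48,12,726), (192,27,385), (768,61,249)]),
    (-11, -15, .tr 13 0 [(240,34,365)]),
    (-11, 11, .tr 13 0 [(44,13,805), (176,21,403)]),
    (-10, -10, .tr 13 0 [(240,31,345)]),
    (-10, 8, .tr 31 0 [(240,37,365)]),
    (-9, -9, .tr 31 192 [(12,3,1451), (24,6,1090), (48,12,816)]),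
    (-9, 7, .tr 13 0 [(4,1,2356), (8,2,1666), (16,6,1178), (32,8,833), (64,11,589), (256,26,334)])]).cov 1877 5 (by decide +kernel)

def ek16_226 : List (ℤ × ℤ × Ct) :=
  [(0, -7, .tr 31 0 []),
    (0, -14, .tr 31 0 []),
    (0, -21, .tr 31 0 []),
    (0, -70, .tr 61 0 []),
    (0, -77, .tr 31 0 []),
    (0, -105, .tr 31 0 []),
    (0, -350, .tr 31 0 []),
    (0, -385, .tr 31 0 []),
    (0, -455, .tr 31 0 []),
    (0, -525, .tr 31 0 []),
    (0, -560, .tr 31 0 []),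
    (0, -910, .tr 31 0 []),
    (0, -1001, .tr 31 0 []),
    (0, 7, .tr 31 0 []),
    (0, 14, .tr 31 0 []),
    (0, 21, .tr 31 0 []),
    (0, 70, .tr 61 0 []),
    (0, 77, .tr 31 0 []),
    (0, 105, .tr 31 0 []),
    (0, 350, .tr 31 0 []),
    (0, 385, .tr 31 0 []),
    (0, 455, .tr 31 0 []),
    (0, 525, .tr 31 0 []),
    (0, 560, .tr 31 0 []),
    (0, 910, .tr 31 0 []),
    (0, 1001, .tr 31 0 [])]

theorem k16_226_c0 : Cov 0 0 0 (-4746) 21 13841287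
    (sr (nat_lit 1) (nat_lit 0) (ss (nat_lit 0) (sk (nat_lit 49) (tG (H3 mdM) Res 0 0 0)))) 226 227 :=
  (snd3 mdM ek16_226).scovK (nat_lit 1) (nat_lit 0) (nat_lit 0) (nat_lit 49) 226 1 (by decide +kernel)

theorem k16_226_c1 : Cov 0 0 0 (-4746) 21 13841287
    (sr (nat_lit 1) (nat_lit 0) (ss (nat_lit 1) (sk (nat_lit 49) (tG (H3 mdM) Res 0 0 0)))) 226 227 :=
  (snd3 mdM ek16_226).scovK (nat_lit 1) (nat_lit 0) (nat_lit 1) (nat_lit 49) 226 1 (by decide +kernel)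

theorem k16_226 : Cov 0 0 0 (-4746) 21 13841287
    (sk (nat_lit 49) (tG (H3 mdM) Res 0 0 0)) 226 227 :=
  Cov.cls 1 (by decide) fun i hi => by
    interval_cases i
    exacts [k16_226_c0.sgn k16_226_c1]

theorem k17_519 : Cov 0 0 0 (-8160) 15 3518743
    (sk (nat_lit 25) (tG (H3 mdM) Res 0 0 0)) 519 529 :=
  (snd3 mdM []).covK (nat_lit 25) 519 10 (by decide +kernel)

end Pool.Agent.MP_b2c033_nt.U.Ch2
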