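import Pool.Agent.MP_b2c033_nt.UC.Ch2.Spl

/-! A part of the finite check. -/

namespace Pool.Agent.MP_b2c033_nt.U.Ch2

set_option maxRecDepth 100000

def ek9_570 : List (ℤ × ℤ × Ct) :=
  [(0, -1, .tr 31 243 [(9,3,1571), (27,11,967), (36,17,890), (81,13,559), (144,19,445), (729,52,198)]),
    (0, -2, .tr 31 0 [(441,41,269), (3969,152,90)]),
    (0, -4, .tr 13 0 [(225,28,356), (2025,98,126)]),
    (0, -7, .tr 13 27 [(9,3,1571), (81,13,593), (729,61,209)]),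
    (0, -9, .tr 31 0 []),
    (0, -61, .tr 13 0 [(9,3,1571), (81,15,559)]),
    (0, 0, .pos),
    (0, 1, .tr 13 225 [(2025,122,126)]),
    (0, 2, .tr 13 0 [(9,3,1571), (27,10,967), (81,15,559), (729,56,209)]),
    (0, 5, .tr 13 0 [(441,40,269)]),
    (0, 6, .tr 31 0 []),
    (0, 20, .tr 13 0 [(9,3,1571), (27,11,967), (81,13,559)]),
    (0, 182, .nm 3 0 0 13)]

theorem k9_570_c0 : Cov 0 0 1 (-1710) 3 177978515
    (sr (nat_lit 3) (nat_lit 0) (tG (H3 mdM) Res 0 0 1)) 570 571 :=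
  (snd3 mdM ek9_570).rcov (nat_lit 3) (nat_lit 0) 570 1 (by decide +kernel)

theorem k9_570_c2 : Cov 0 0 1 (-1710) 3 177978515
    (sr (nat_lit 3) (nat_lit 1) (tG (H3 mdM) Res 0 0 1)) 570 571 :=
  (snd3 mdM ek9_570).rcov (nat_lit 3) (nat_lit 1) 570 1 (by decide +kernel)

theorem k9_570_c4 : Cov 0 0 1 (-1710) 3 177978515
    (sr (nat_lit 3) (nat_lit 2) (tG (H3 mdM) Res 0 0 1)) 570 571 :=
  (snd3 mdM ek9_570).rcov (nat_lit 3) (nat_lit 2) 570 1 (by decide +kernel)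

theorem k9_570 : Cov 0 0 1 (-1710) 3 177978515
    (tG (H3 mdM) Res 0 0 1) 570 571 :=
  Cov.cls 3 (by decide) fun i hi => by
    interval_cases i
    exacts [k9_570_c0, k9_570_c2, k9_570_c4]

theorem k17_543 : Cov 0 0 0 (-8160) 15 3518743
    (sk (nat_lit 25) (tG (H3 mdM) Res 0 0 0)) 543 544 :=
  (snd3 mdM [(-15, 0, .tr 101 0 []),
    (-15, -10, .tr 61 0 []),
    (-15, -25, .tr 61 0 []),
    (-15, -30, .tr 251 0 [(3600,159,99)]),
    (-15, -40, .tr 31 0 []),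
    (-15, -110, .tr 31 0 []),
    (-15, -140, .tr 31 0 []),
    (-15, 10, .tr 61 0 []),
    (-15, 25, .tr 61 0 []),
    (-15, 30, .tr 251 0 [(3600,152,115)]),
    (-15, 40, .tr 31 0 []),
    (-15, 110, .tr 31 0 []),
    (-15, 140, .tr 31 0 [])]).covK (nat_lit 25) 543 1 (by decide +kernel)

theorem k20_0 : Cov 1 (-1) 1 (-631) 3 2194972623
    (tG (H3 mdM) Res 1 (-1) 1) 0 213 :=
  (snd3 mdM [(-10, 14, .tr 31 0 []),
    (-7, 8, .tr 31 0 []),
    (-4, 0, .tr 31 0 []),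
    (-4, -4, .tr 31 0 []),
    (-4, 4, .tr 31 0 []),
    (-4, 6, .tr 31 0 []),
    (-1, -1, .tr 31 0 []),
    (-1, -2, .tr 31 0 []),
    (-1, -4, .tr 31 0 []),
    (-1, 0, .pos),
    (-1, 1, .tr 31 0 []),
    (-1, 2, .tr 31 0 []),
    (-1, 4, .tr 31 0 []),
    (5, -4, .tr 31 0 [])]).cov 0 213 (by decide +kernel)

theorem k20_213 : Cov 1 (-1) 1 (-631) 3 2194972623
    (tG (H3 mdM) Res 1 (-1) 1) 213 224 :=
  (snd3 mdM []).cov 213 11 (by decide +kernel)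

end Pool.Agent.MP_b2c033_nt.U.Ch2
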