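import Pool.Agent.MP_b2c033_nt.UC.Ch2.Spl

/-! A part of the finite check. -/

namespace Pool.Agent.MP_b2c033_nt.U.Ch2

set_option maxRecDepth 100000

theorem k14_0 : Cov 0 1 0 (-1890) 1 139314069
    (tG (H3 mdM) Res 0 1 0) 0 1133 :=
  (snd3 mdM []).cov 0 1133 (by decide +kernel)

theorem k15_757 : Cov 0 0 0 (-2430) 3 75418890
    (skA (tG (H3 mdM) Res 0 0 0)) 757 773 :=
  (snd3 mdM [(-144, -672, .tr 13 0 [(144,24,471)]),
    (-144, 672, .tr 13 0 [(144,27,471)]),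
    (-138, -624, .tr 13 0 [(36,11,890), (144,19,445), (1296,85,157)]),
    (-138, 624, .tr 13 0 [(36,12,942), (144,22,445), (1296,78,157)]),
    (-120, -506, .tr 31 0 [(36,11,838), (144,21,445), (1296,73,157)]),
    (-120, 506, .tr 31 0 [(36,12,838), (144,20,445), (1296,76,157)])]).covA 757 16 (by decide +kernel)

def ek17_548 : List (ℤ × ℤ × Ct) :=
  [(105, -35, .tr 31 0 []),
    (105, -175, .tr 31 0 []),
    (105, -210, .tr 31 0 []),
    (105, -595, .tr 31 0 []),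
    (105, -770, .tr 31 0 []),
    (105, 35, .tr 31 0 []),
    (105, 175, .tr 31 0 []),
    (105, 210, .tr 31 0 []),
    (105, 595, .tr 31 0 []),
    (105, 770, .tr 31 0 [])]

theorem k17_548_c0 : Cov 0 0 0 (-8160) 15 3518743
    (sr (nat_lit 2) (nat_lit 0) (sk (nat_lit 25) (tG (H3 mdM) Res 0 0 0))) 548 552 :=
  (snd3 mdM ek17_548).rcovK (nat_lit 2) (nat_lit 0) (nat_lit 25) 548 4 (by decide +kernel)

theorem k17_548_c2 : Cov 0 0 0 (-8160) 15 3518743
    (sr (nat_lit 2) (nat_lit 1) (sk (nat_lit 25) (tG (H3 mdM) Res 0 0 0))) 548 552 :=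
  (snd3 mdM ek17_548).rcovK (nat_lit 2) (nat_lit 1) (nat_lit 25) 548 4 (by decide +kernel)

theorem k17_548 : Cov 0 0 0 (-8160) 15 3518743
    (sk (nat_lit 25) (tG (H3 mdM) Res 0 0 0)) 548 552 :=
  Cov.cls 2 (by decide) fun i hi => by
    interval_cases i
    exacts [k17_548_c0, k17_548_c2]

theorem k18_212 : Cov 0 0 1 (-631) 3 2194972623
    (tG (H3 mdM) Res 0 0 1) 212 224 :=
  (snd3 mdM []).cov 212 12 (by decide +kernel)

end Pool.Agent.MP_b2c033_nt.U.Ch2
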