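import Pool.Agent.MP_b2c033_nt.UC.Ch2.G23

/-! A part of the finite check. -/

namespace Pool.Agent.MP_b2c033_nt.U.Ch2

set_option maxRecDepth 100000

theorem k10_0 : Cov 1 (-1) 0 (-1710) 3 177978515
    (tG (H3 mdM) Res 1 (-1) 0) 0 545 :=
  (snd3 mdM [(-123, 557, .tr 13 0 [(18,6,1259)]),
    (-96, 386, .tr 13 0 [(18,8,1111)])]).cov 0 545 (by decide +kernel)

theorem k11_588 : Cov 1 (-1) 1 (-1709) 3 177978515
    (tG (H3 mdM) Res 1 (-1) 1) 588 600 :=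
  (snd3 mdM []).cov 588 12 (by decide +kernel)

theorem k12_0 : Cov 0 (-1) 0 (-1890) 1 139314069
    (tG (H3 mdM) Res 0 (-1) 0) 0 1133 :=
  (snd3 mdM []).cov 0 1133 (by decide +kernel)

theorem k13_599 : Cov 0 0 0 (-1889) 3 139314069
    (tG (H3 mdM) Res 0 0 0) 599 624 :=
  (snd3 mdM [(-44, -112, .tr 13 64 [(4,1,2356), (8,2,1666), (16,5,1178), (32,9,833), (256,29,334)]),
    (-44, 112, .tr 13 64 [(4,1,2356), (8,2,1666), (16,5,1178), (32,9,833), (256,29,334)]),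
    (-32, 0, .nm 2 0 0 0),
    (-32, -64, .nm 2 0 0 0),
    (-32, 64, .nm 2 0 0 0),
    (-20, 0, .tr 13 0 [(400,37,283)]),
    (-20, -16, .tr 13 0 [(112,18,475)]),
    (-20, 16, .tr 13 0 [(112,17,505)])]).cov 599 25 (by decide +kernel)

end Pool.Agent.MP_b2c033_nt.U.Ch2
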