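import Pool.Agent.MP_b2c033_nt.UC.Ch2.G38

/-! A part of the finite check. -/

namespace Pool.Agent.MP_b2c033_nt.U.Ch2

set_option maxRecDepth 100000

theorem k7_635 : Cov 1 1 0 (-630) 1 2194972623
    (tG (H3 mdM) Res 1 1 0) 635 669 :=
  (snd3 mdM []).cov 635 34 (by decide +kernel)

theorem k12_1907 : Cov 0 (-1) 0 (-1890) 1 139314069
    (tG (H3 mdM) Res 0 (-1) 0) 1907 1937 :=
  (snd3 mdM [(17, -13, .tr 31 0 []),
    (27, -99, .nm 2 3 0 0),
    (31, 33, .tr 13 0 [(12,4,1360), (48,10,680)]),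
    (43, -147, .nm 2 3 0 0)]).cov 1907 30 (by decide +kernel)

theorem k14_1897 : Cov 0 1 0 (-1890) 1 139314069
    (tG (H3 mdM) Res 0 1 0) 1897 1907 :=
  (snd3 mdM [(7, 2, .tr 31 0 []),
    (7, 0, .tr 31 0 []),
    (7, -1, .tr 31 0 []),
    (7, -9, .tr 13 0 [(12,3,1451), (24,6,1026), (48,11,771), (192,32,408), (768,72,204)]),
    (7, 3, .tr 31 0 []),
    (7, 5, .tr 31 0 []),
    (7, 7, .tr 13 0 [(28,8,891), (112,17,475)]),
    (7, 23, .tr 31 0 [(100,18,565), (400,37,267)]),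
    (8, 8, .tr 31 0 [(12,3,1451), (24,6,962), (48,11,726), (192,26,385)]),
    (9, 9, .tr 13 0 [(240,27,345)]),
    (11, -13, .nm 2 1 0 0),
    (11, -205, .nm 2 1 0 0),
    (11, 51, .nm 2 1 0 0),
    (15, -17, .tr 13 0 [(20,8,1194), (80,13,597)]),
    (16, 180, .tr 13 48 [(12,3,1451)])]).cov 1897 10 (by decide +kernel)

theorem k17_546 : Cov 0 0 0 (-8160) 15 3518743
    (sk (nat_lit 25) (tG (H3 mdM) Res 0 0 0)) 546 548 :=
  (snd3 mdM [(30, -35, .tr 31 0 []),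
    (30, -75, .tr 31 0 []),
    (30, -110, .tr 31 0 []),
    (30, -145, .tr 31 0 []),
    (30, -240, .tr 31 0 []),
    (30, -275, .tr 31 0 []),
    (30, 35, .tr 31 0 []),
    (30, 75, .tr 31 0 []),
    (30, 110, .tr 31 0 []),
    (30, 145, .tr 31 0 []),
    (30, 240, .tr 31 0 []),
    (30, 275, .tr 31 0 []),
    (45, -5, .tr 31 0 []),
    (45, -110, .tr 31 0 []),
    (45, -210, .tr 31 0 []),
    (45, 5, .tr 31 0 []),
    (45, 110, .tr 31 0 []),
    (45, 210, .tr 31 0 [])]).covK (nat_lit 25) 546 2 (by decide +kernel)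

end Pool.Agent.MP_b2c033_nt.U.Ch2
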