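import Pool.Agent.MP_b2c033_nt.UC.Ch2.Spl

/-! A part of the finite check. -/

namespace Pool.Agent.MP_b2c033_nt.U.Ch2

set_option maxRecDepth 100000

def ek15_811 : List (ℤ × ℤ × Ct) :=
  [(3, 0, .tr 101 0 [(36,9,1204), (72,12,629), (108,15,514), (144,18,445), (324,32,332), (432,36,272), (576,44,223), (648,47,222), (1296,75,157), (2304,117,144)]),
    (3, -1, .tr 31 0 [(720,56,211)]),
    (3, -2, .tr 251 0 [(36,10,838), (72,17,629), (108,21,514), (144,25,445), (288,42,333), (324,49,314), (432,51,272), (576,57,236), (648,60,222), (1296,88,157), (1728,105,136), (2304,128,124), (2592,140,117), (2916,156,105), (5184,204,79), (6912,233,72), (9216,271,62), (11664,309,55), (20736,439,41)]),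
    (3, -3, .tr 31 0 []),
    (3, -4, .tr 101 0 [(180,32,421), (720,70,211), (6480,236,74)]),
    (3, -6, .tr 61 0 [(720,54,211)]),
    (3, -7, .tr 31 0 []),
    (3, -9, .tr 31 0 []),
    (3, -11, .tr 61 0 [(720,83,222)]),
    (3, -14, .tr 31 0 []),
    (3, -16, .tr 31 0 []),
    (3, -17, .tr 31 0 []),
    (3, -24, .tr 31 0 []),
    (3, -28, .tr 31 0 []),
    (3, -33, .tr 31 0 []),
    (3, 1, .tr 31 0 [(720,49,211)]),
    (3, 2, .tr 251 0 [(36,10,890), (72,15,629), (108,18,544), (144,21,471), (288,32,315), (324,34,314), (432,40,272), (576,48,236), (648,51,222), (1296,75,192), (1728,89,136), (2304,104,144), (2592,112,111), (2916,121,128), (5184,168,96), (6912,201,68), (9216,239,72), (11664,276,64), (20736,390,41)]),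
    (3, 3, .tr 31 0 []),
    (3, 4, .tr 101 0 [(180,23,398), (720,52,211), (6480,194,70)]),
    (3, 6, .tr 61 0 [(720,59,211)]),
    (3, 7, .tr 31 0 []),
    (3, 9, .tr 31 0 []),
    (3, 11, .tr 61 0 [(720,53,211)]),
    (3, 14, .tr 31 0 []),
    (3, 16, .tr 31 0 []),
    (3, 17, .tr 31 0 []),
    (3, 24, .tr 31 0 []),
    (3, 28, .tr 31 0 []),
    (3, 33, .tr 31 0 [])]

theorem k15_811_c0 : Cov 0 0 0 (-2430) 3 75418890
    (sr (nat_lit 2) (nat_lit 0) (ss (nat_lit 0) (skA (tG (H3 mdM) Res 0 0 0)))) 811 812 :=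
  (snd3 mdM ek15_811).scovA (nat_lit 2) (nat_lit 0) (nat_lit 0) 811 1 (by decide +kernel)

theorem k15_811_c1 : Cov 0 0 0 (-2430) 3 75418890
    (sr (nat_lit 2) (nat_lit 0) (ss (nat_lit 1) (skA (tG (H3 mdM) Res 0 0 0)))) 811 812 :=
  (snd3 mdM ek15_811).scovA (nat_lit 2) (nat_lit 0) (nat_lit 1) 811 1 (by decide +kernel)

theorem k15_811_c2 : Cov 0 0 0 (-2430) 3 75418890
    (sr (nat_lit 2) (nat_lit 1) (ss (nat_lit 0) (skA (tG (H3 mdM) Res 0 0 0)))) 811 812 :=
  (snd3 mdM ek15_811).scovA (nat_lit 2) (nat_lit 1) (nat_lit 0) 811 1 (by decide +kernel)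

theorem k15_811_c3 : Cov 0 0 0 (-2430) 3 75418890
    (sr (nat_lit 2) (nat_lit 1) (ss (nat_lit 1) (skA (tG (H3 mdM) Res 0 0 0)))) 811 812 :=
  (snd3 mdM ek15_811).scovA (nat_lit 2) (nat_lit 1) (nat_lit 1) 811 1 (by decide +kernel)

theorem k15_811 : Cov 0 0 0 (-2430) 3 75418890
    (skA (tG (H3 mdM) Res 0 0 0)) 811 812 :=
  Cov.cls 2 (by decide) fun i hi => by
    interval_cases i
    exacts [k15_811_c0.sgn k15_811_c1, k15_811_c2.sgn k15_811_c3]

end Pool.Agent.MP_b2c033_nt.U.Ch2
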