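import Pool.Agent.MP_b2c033_nt.UC.Ch2.G17

/-! A part of the finite check. -/

namespace Pool.Agent.MP_b2c033_nt.U.Ch2

set_option maxRecDepth 100000

theorem k8_637 : Cov 1 1 1 (-630) 1 2194972623
    (tG (H3 mdM) Res 1 1 1) 637 669 :=
  (snd3 mdM []).cov 637 32 (by decide +kernel)

theorem k12_1796 : Cov 0 (-1) 0 (-1890) 1 139314069
    (tG (H3 mdM) Res 0 (-1) 0) 1796 1822 :=
  (snd3 mdM [(-93, -315, .tr 13 0 [(12,4,1360), (48,11,771)]),
    (-69, -195, .nm 2 3 0 0),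
    (-69, 189, .nm 2 3 0 0)]).cov 1796 26 (by decide +kernel)

theorem k14_1907 : Cov 0 1 0 (-1890) 1 139314069
    (tG (H3 mdM) Res 0 1 0) 1907 1937 :=
  (snd3 mdM [(17, 13, .tr 31 0 []),
    (27, 99, .nm 2 1 0 0),
    (31, -33, .tr 13 0 [(12,3,1451), (48,12,816)]),
    (43, 147, .nm 2 1 0 0)]).cov 1907 30 (by decide +kernel)

def ek16_217 : List (ℤ × ℤ × Ct) :=
  [(-105, -35, .tr 31 0 []),
    (-105, -175, .tr 31 0 []),
    (-105, -210, .tr 31 0 []),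
    (-105, -420, .tr 31 0 []),
    (-105, -595, .tr 31 0 []),
    (-105, 35, .tr 31 0 []),
    (-105, 175, .tr 31 0 []),
    (-105, 210, .tr 31 0 []),
    (-105, 420, .tr 31 0 []),
    (-105, 595, .tr 31 0 []),
    (-63, -189, .tr 31 0 []),
    (-63, 189, .tr 31 0 [])]

theorem k16_217_c0 : Cov 0 0 0 (-4746) 21 13841287
    (sr (nat_lit 2) (nat_lit 0) (sk (nat_lit 49) (tG (H3 mdM) Res 0 0 0))) 217 224 :=
  (snd3 mdM ek16_217).rcovK (nat_lit 2) (nat_lit 0) (nat_lit 49) 217 7 (by decide +kernel)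

theorem k16_217_c2 : Cov 0 0 0 (-4746) 21 13841287
    (sr (nat_lit 2) (nat_lit 1) (sk (nat_lit 49) (tG (H3 mdM) Res 0 0 0))) 217 224 :=
  (snd3 mdM ek16_217).rcovK (nat_lit 2) (nat_lit 1) (nat_lit 49) 217 7 (by decide +kernel)

theorem k16_217 : Cov 0 0 0 (-4746) 21 13841287
    (sk (nat_lit 49) (tG (H3 mdM) Res 0 0 0)) 217 224 :=
  Cov.cls 2 (by decide) fun i hi => by
    interval_cases i
    exacts [k16_217_c0, k16_217_c2]

end Pool.Agent.MP_b2c033_nt.U.Ch2
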