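import Pool.Agent.MP_b2c033_nt.UC.Ch2.G30

/-! A part of the finite check. -/

namespace Pool.Agent.MP_b2c033_nt.U.Ch2

set_option maxRecDepth 100000

theorem k5_623 : Cov 1 0 0 (-630) 1 2194972623
    (tG (H3 mdM) Res 1 0 0) 623 633 :=
  (snd3 mdM [(-7, -8, .tr 31 0 []),
    (-5, -4, .tr 31 0 []),
    (-5, 4, .tr 31 0 []),
    (-4, -1, .tr 13 21 []),
    (-4, -3, .tr 31 0 []),
    (-4, 1, .tr 31 0 []),
    (-4, 3, .tr 31 0 []),
    (-3, -2, .tr 31 0 []),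
    (-3, -3, .tr 13 150 []),
    (-3, -4, .tr 31 0 []),
    (-2, -1, .tr 31 0 []),
    (-2, 1, .tr 31 0 []),
    (-1, -1, .tr 13 294 []),
    (-1, -2, .tr 31 0 []),
    (0, -1, .tr 31 0 []),
    (0, 1, .tr 31 0 []),
    (1, 0, .pos),
    (1, -1, .tr 31 0 []),
    (1, -2, .tr 31 0 []),
    (1, 2, .tr 31 0 []),
    (2, 1, .tr 31 0 [])]).cov 623 10 (by decide +kernel)

theorem k5_633 : Cov 1 0 0 (-630) 1 2194972623
    (tG (H3 mdM) Res 1 0 0) 633 669 :=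
  (snd3 mdM [(4, -1, .tr 31 0 [])]).cov 633 36 (by decide +kernel)

theorem k14_1796 : Cov 0 1 0 (-1890) 1 139314069
    (tG (H3 mdM) Res 0 1 0) 1796 1822 :=
  (snd3 mdM [(-93, 315, .tr 13 0 [(12,3,1451), (48,13,726)]),
    (-69, -189, .nm 2 1 0 0),
    (-69, 195, .nm 2 1 0 0)]).cov 1796 26 (by decide +kernel)

theorem k14_1891 : Cov 0 1 0 (-1890) 1 139314069
    (tG (H3 mdM) Res 0 1 0) 1891 1893 :=
  (snd3 mdM [(1, 0, .pos),
    (1, -1, .tr 31 0 [(44,9,805), (176,23,403)]),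
    (1, -3, .tr 61 768 [(12,3,1451), (24,6,1090), (48,14,726), (96,16,513), (192,23,363)]),
    (1, 1, .tr 31 128 [(4,1,2356), (8,2,1666), (16,6,1178), (32,8,833), (64,11,589), (256,26,334), (1024,74,177)]),
    (1, 2, .tr 31 0 []),
    (1, 5, .tr 31 0 []),
    (2, 0, .tr 31 0 [(28,8,891), (56,10,714), (112,16,475), (448,38,267), (1792,99,134)]),
    (2, -1, .tr 31 0 []),
    (2, -2, .tr 61 0 [(100,19,503), (200,25,400), (400,38,283), (1600,100,173), (6400,222,86)]),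
    (2, -4, .tr 31 0 [(336,41,377)]),
    (2, -5, .tr 31 0 []),
    (2, 1, .tr 61 92 [(368,36,295)]),
    (2, 2, .tr 13 0 [(12,3,1451), (24,6,1026), (48,12,726), (96,18,577), (192,27,385), (768,61,249), (3072,142,125)]),
    (2, 3, .tr 31 0 []),
    (2, 4, .tr 31 0 []),
    (2, 8, .tr 31 0 [])]).cov 1891 2 (by decide +kernel)

end Pool.Agent.MP_b2c033_nt.U.Ch2
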