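import Pool.Agent.MP_b2c033_nt.UC.Ch2.G9

/-! A part of the finite check. -/

namespace Pool.Agent.MP_b2c033_nt.U.Ch2

set_option maxRecDepth 100000

theorem k12_1885 : Cov 0 (-1) 0 (-1890) 1 139314069
    (tG (H3 mdM) Res 0 (-1) 0) 1885 1887 :=
  (snd3 mdM [(-5, -1, .tr 31 0 []),
    (-5, -2, .tr 31 0 []),
    (-5, 5, .tr 13 320 [(20,5,1054), (40,9,745), (80,14,562), (1280,77,158)]),
    (-5, 7, .tr 31 0 []),
    (-5, 13, .nm 2 3 0 4),
    (-4, -1, .tr 31 0 []),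
    (-4, -2, .tr 61 192 [(12,4,1360), (24,10,1026), (48,10,680), (96,14,513), (768,55,204)]),
    (-4, 4, .pos)]).cov 1885 2 (by decide +kernel)

theorem k14_1133 : Cov 0 1 0 (-1890) 1 139314069
    (tG (H3 mdM) Res 0 1 0) 1133 1749 :=
  (snd3 mdM [(-384, 2772, .tr 13 48 [(12,3,1451)]),
    (-257, 1503, .tr 13 0 [(12,3,1451), (48,10,1043)])]).cov 1133 616 (by decide +kernel)

theorem k14_1749 : Cov 0 1 0 (-1890) 1 139314069
    (tG (H3 mdM) Res 0 1 0) 1749 1796 :=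
  (snd3 mdM [(-141, -693, .tr 13 0 [(12,3,1451), (48,10,680)]),
    (-129, -609, .tr 13 0 [(12,3,1451), (48,12,816)]),
    (-117, 435, .nm 2 1 0 0),
    (-97, -385, .tr 13 0 [(12,3,1451), (48,10,1043)])]).cov 1749 47 (by decide +kernel)

theorem k15_798 : Cov 0 0 0 (-2430) 3 75418890
    (skA (tG (H3 mdM) Res 0 0 0)) 798 799 :=
  (snd3 mdM [(-36, 0, .tr 13 0 [(144,19,445), (1296,73,157)]),
    (-36, -48, .tr 31 0 []),
    (-36, -72, .tr 13 0 [(36,9,838), (144,24,445), (1296,73,157)]),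
    (-36, -80, .tr 31 0 [(36,10,890), (144,19,445), (1296,83,166)]),
    (-36, -84, .tr 61 0 [(36,11,838), (72,13,629), (144,20,419), (324,33,314), (576,49,236), (1296,83,157), (2304,115,118)]),
    (-36, -96, .tr 31 0 [(36,11,838), (144,19,445)]),
    (-36, -144, .tr 13 0 [(144,21,419)]),
    (-36, 48, .tr 31 0 []),
    (-36, 72, .tr 13 0 [(36,9,890), (144,25,471), (1296,90,157)]),
    (-36, 80, .tr 31 0 [(36,11,890), (144,20,445), (1296,77,166)]),
    (-36, 84, .tr 61 0 [(36,11,838), (72,13,592), (144,19,445), (324,32,314), (576,48,236), (1296,86,157), (2304,125,124)]),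
    (-36, 96, .tr 31 0 [(36,11,890), (144,20,471)]),
    (-36, 144, .tr 13 0 [(144,18,445)])]).covA 798 1 (by decide +kernel)

end Pool.Agent.MP_b2c033_nt.U.Ch2
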