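import Pool.Agent.MP_b2c033_nt.UC.Ch2.G14

/-! A part of the finite check. -/

namespace Pool.Agent.MP_b2c033_nt.U.Ch2

set_option maxRecDepth 100000

theorem k5_0 : Cov 1 0 0 (-630) 1 2194972623
    (tG (H3 mdM) Res 1 0 0) 0 623 :=
  (snd3 mdM []).cov 0 623 (by decide +kernel)

theorem k16_224 : Cov 0 0 0 (-4746) 21 13841287
    (sk (nat_lit 49) (tG (H3 mdM) Res 0 0 0)) 224 226 :=
  (snd3 mdM [(-42, -126, .tr 31 0 []),
    (-42, -154, .tr 31 0 []),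
    (-42, 126, .tr 31 0 []),
    (-42, 154, .tr 31 0 [])]).covK (nat_lit 49) 224 2 (by decide +kernel)

theorem k17_0 : Cov 0 0 0 (-8160) 15 3518743
    (sk (nat_lit 25) (tG (H3 mdM) Res 0 0 0)) 0 519 :=
  (snd3 mdM [(-420, -3325, .tr 31 0 []),
    (-420, 3325, .tr 31 0 [])]).covK (nat_lit 25) 0 519 (by decide +kernel)

theorem k21_628 : Cov 0 0 0 (-1888) 3 139314069
    (tG (H3 mdM) Res 0 0 0) 628 632 :=
  (snd3 mdM [(-4, 0, .pos),
    (-4, -3, .tr 31 52 [(208,25,370)]),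
    (-4, 3, .tr 31 208 [(52,13,697)]),
    (-1, 0, .pos),
    (-1, -6, .tr 13 0 [(176,20,403)]),
    (-1, 6, .tr 13 0 [(176,23,426)]),
    (2, 0, .tr 61 256 [(4,1,2356), (8,2,1666), (16,5,1178), (32,8,889), (64,13,668), (128,21,500), (1024,72,177)]),
    (2, -6, .tr 31 0 []),
    (2, 6, .tr 31 0 []),
    (5, 0, .tr 31 1600 [(100,17,503), (200,25,378), (400,37,283), (6400,193,86)]),
    (5, -3, .tr 31 0 []),
    (5, -9, .tr 31 0 []),
    (5, 3, .tr 31 0 []),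
    (5, 9, .tr 31 0 [])]).cov 628 4 (by decide +kernel)

end Pool.Agent.MP_b2c033_nt.U.Ch2
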