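import Pool.Agent.MP_b2c033_nt.UC.Ch2.G13

/-! A part of the finite check. -/

namespace Pool.Agent.MP_b2c033_nt.U.Ch2

set_option maxRecDepth 100000

theorem k0_0 : Cov 0 (-1) 1 (-630) 1 2194972623
    (tG (H3 mdM) Res 0 (-1) 1) 0 620 :=
  (snd3 mdM [(-11, 18, .tr 31 0 [])]).cov 0 620 (by decide +kernel)

theorem k1_211 : Cov 0 0 1 (-632) 3 2194972623
    (tG (H3 mdM) Res 0 0 1) 211 224 :=
  (snd3 mdM [(1, -1, .tr 31 0 []),
    (4, -1, .tr 31 0 []),
    (4, -2, .tr 31 0 []),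
    (4, -3, .tr 31 0 []),
    (4, -5, .tr 31 0 []),
    (4, -6, .tr 31 0 []),
    (4, 2, .tr 31 0 []),
    (4, 4, .tr 31 0 []),
    (4, 6, .tr 31 0 [])]).cov 211 13 (by decide +kernel)

theorem k12_1749 : Cov 0 (-1) 0 (-1890) 1 139314069
    (tG (H3 mdM) Res 0 (-1) 0) 1749 1796 :=
  (snd3 mdM [(-141, 693, .tr 13 0 [(12,4,1360), (48,14,816)]),
    (-129, 609, .tr 13 0 [(12,4,1360), (48,10,680)]),
    (-117, -435, .nm 2 3 0 0),
    (-97, 385, .tr 13 0 [(12,4,1360), (48,12,726)])]).cov 1749 47 (by decide +kernel)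

theorem k21_622 : Cov 0 0 0 (-1888) 3 139314069
    (tG (H3 mdM) Res 0 0 0) 622 628 :=
  (snd3 mdM [(-19, -30, .tr 13 112 [(28,8,891)]),
    (-19, 30, .tr 13 0 [(28,8,891), (112,19,505)]),
    (-16, 0, .nm 2 0 0 0),
    (-16, -24, .tr 31 0 []),
    (-16, 24, .tr 31 0 []),
    (-13, -18, .tr 13 0 [(20,6,1054), (40,12,844), (80,14,632), (320,31,299), (1280,72,158)]),
    (-13, 18, .tr 13 0 [(20,6,1054), (40,11,795), (80,14,562), (320,31,316), (1280,73,158)]),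
    (-10, 0, .tr 31 0 [(100,16,565), (400,36,283)]),
    (-10, -12, .tr 31 0 [(28,8,950), (56,13,672), (112,17,505), (448,38,267), (1792,89,134)]),
    (-10, 12, .tr 31 0 [(28,8,950), (56,13,714), (112,18,475), (448,38,252), (1792,88,134)]),
    (-7, -6, .tr 13 40 [(20,6,1054), (80,15,562), (320,32,299), (1280,82,158)]),
    (-7, 6, .tr 13 80 [(20,6,1054), (40,11,795), (320,34,316), (1280,73,158)])]).cov 622 6 (by decide +kernel)

end Pool.Agent.MP_b2c033_nt.U.Ch2
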