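import Pool.Agent.MP_b2c033_nt.UC.Ch2.G31

/-! A part of the finite check. -/

namespace Pool.Agent.MP_b2c033_nt.U.Ch2

set_option maxRecDepth 100000

theorem k7_624 : Cov 1 1 0 (-630) 1 2194972623
    (tG (H3 mdM) Res 1 1 0) 624 635 :=
  (snd3 mdM [(-5, -8, .tr 31 0 []),
    (-5, 4, .tr 31 0 []),
    (-4, -7, .tr 31 0 []),
    (-3, -4, .tr 31 0 []),
    (-3, 1, .tr 31 0 []),
    (-1, -1, .tr 31 0 []),
    (-1, -4, .tr 31 0 []),
    (-1, 0, .tr 31 0 []),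
    (-1, 2, .tr 31 0 []),
    (0, -1, .tr 31 0 []),
    (0, 1, .tr 31 0 []),
    (1, 0, .tr 13 39 []),
    (1, -2, .tr 31 0 []),
    (1, 1, .tr 31 0 []),
    (1, 2, .tr 31 0 []),
    (1, 4, .tr 31 0 []),
    (2, -1, .tr 31 0 []),
    (3, -2, .tr 31 0 []),
    (3, 2, .tr 31 0 []),
    (4, 1, .tr 31 0 [])]).cov 624 11 (by decide +kernel)

theorem k12_1891 : Cov 0 (-1) 0 (-1890) 1 139314069
    (tG (H3 mdM) Res 0 (-1) 0) 1891 1893 :=
  (snd3 mdM [(1, -1, .tr 31 128 [(4,1,2356), (8,2,1666), (16,4,1178), (32,8,833), (64,13,668), (256,31,353), (1024,65,177)]),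
    (1, -2, .tr 31 0 []),
    (1, -5, .tr 31 0 []),
    (1, 0, .pos),
    (1, 1, .tr 31 0 [(44,11,805), (176,22,403)]),
    (1, 3, .tr 61 768 [(12,4,1360), (24,11,1026), (48,10,726), (96,15,513), (192,24,385)]),
    (2, -1, .tr 61 368 [(92,15,524)]),
    (2, -2, .tr 13 0 [(12,4,1360), (24,8,1154), (48,11,726), (96,16,545), (192,26,408), (768,60,204), (3072,134,102)]),
    (2, -3, .tr 31 0 []),
    (2, -4, .tr 31 0 []),
    (2, -8, .tr 31 0 []),
    (2, 0, .tr 31 0 [(28,7,891), (56,11,714), (112,19,534), (448,45,267), (1792,92,134)]),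
    (2, 1, .tr 31 0 []),
    (2, 2, .tr 61 0 [(100,16,503), (200,25,378), (400,39,283), (1600,96,173), (6400,214,86)]),
    (2, 4, .tr 31 0 [(336,33,308)]),
    (2, 5, .tr 31 0 [])]).cov 1891 2 (by decide +kernel)

theorem k14_1885 : Cov 0 1 0 (-1890) 1 139314069
    (tG (H3 mdM) Res 0 1 0) 1885 1887 :=
  (snd3 mdM [(-5, -5, .tr 13 320 [(20,8,1194), (40,9,795), (80,13,597), (1280,74,158)]),
    (-5, -7, .tr 31 0 []),
    (-5, -13, .tr 13 176 []),
    (-5, 1, .tr 31 0 []),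
    (-5, 2, .tr 31 0 []),
    (-4, -4, .pos),
    (-4, 1, .tr 31 0 []),
    (-4, 2, .tr 61 192 [(12,3,1451), (24,6,1090), (48,12,816), (96,20,577), (768,66,204)])]).cov 1885 2 (by decide +kernel)

theorem k14_1937 : Cov 0 1 0 (-1890) 1 139314069
    (tG (H3 mdM) Res 0 1 0) 1937 1981 :=
  (snd3 mdM []).cov 1937 44 (by decide +kernel)

end Pool.Agent.MP_b2c033_nt.U.Ch2
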