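import Pool.Agent.MP_b2c033_nt.UC.Ch2.G4

/-! A part of the finite check. -/

namespace Pool.Agent.MP_b2c033_nt.U.Ch2

set_option maxRecDepth 100000

theorem k12_1888 : Cov 0 (-1) 0 (-1890) 1 139314069
    (tG (H3 mdM) Res 0 (-1) 0) 1888 1891 :=
  (snd3 mdM [(-2, 0, .tr 61 96 [(12,4,1360), (24,8,962), (48,13,771), (192,29,408), (768,56,204)]),
    (-2, -1, .tr 31 0 []),
    (-2, -8, .tr 31 0 []),
    (-2, 1, .tr 31 196 [(784,56,202)]),
    (-2, 2, .tr 31 128 [(4,1,2356), (8,2,1666), (16,4,1178), (32,7,889), (64,12,668), (256,30,334), (1024,64,177)]),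
    (-2, 3, .tr 31 0 []),
    (-1, 0, .pos),
    (-1, -1, .tr 31 704 [(44,10,758), (88,14,770), (176,22,426), (2816,120,107)]),
    (-1, -15, .tr 13 0 [(20,5,1054), (80,16,562)]),
    (-1, 2, .tr 31 0 []),
    (0, -1, .tr 31 0 []),
    (0, -2, .tr 31 0 []),
    (0, -4, .tr 13 0 [(28,7,891), (112,17,534)]),
    (0, 1, .tr 31 0 []),
    (0, 2, .tr 13 320 [(20,5,1054), (40,9,745), (80,15,562), (1280,80,158)]),
    (0, 4, .tr 31 0 [(208,24,370)]),
    (0, 12, .nm 2 2 1 4)]).cov 1888 3 (by decide +kernel)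

theorem k14_1866 : Cov 0 1 0 (-1890) 1 139314069
    (tG (H3 mdM) Res 0 1 0) 1866 1877 :=
  (snd3 mdM [(-24, 36, .pos),
    (-23, -51, .tr 13 768 [(12,3,1451), (24,6,1026), (48,11,726), (192,28,408)]),
    (-21, 19, .nm 2 1 0 0),
    (-20, -42, .tr 31 0 [(240,40,365)]),
    (-19, -39, .tr 13 0 [(28,7,1009), (112,16,475)]),
    (-18, -36, .tr 31 0 []),
    (-18, 24, .tr 31 0 []),
    (-17, -33, .tr 31 0 [(12,3,1451), (24,6,962), (48,11,726), (192,26,385)]),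
    (-17, 15, .tr 31 192 [(12,3,1451), (24,6,962), (48,10,1043)]),
    (-16, -29, .tr 13 784 []),
    (-15, -27, .tr 13 0 [(240,29,365)]),
    (-15, -28, .tr 31 0 []),
    (-15, 18, .tr 13 0 [(60,13,689), (240,31,345)]),
    (-15, 25, .tr 13 0 [(20,8,1124), (80,14,562)])]).cov 1866 11 (by decide +kernel)

theorem k15_783 : Cov 0 0 0 (-2430) 3 75418890
    (skA (tG (H3 mdM) Res 0 0 0)) 783 791 :=
  (snd3 mdM [(-81, -270, .tr 13 0 [(144,20,419)]),
    (-81, 270, .tr 13 0 [(144,19,445)]),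
    (-75, -262, .tr 13 1296 [(144,20,445)]),
    (-75, 262, .nm 2 3 1 0),
    (-66, -200, .tr 13 0 [(144,20,471), (1296,104,166)]),
    (-66, 200, .tr 13 0 [(144,19,445), (1296,109,148)]),
    (-60, -176, .tr 61 0 [(36,10,942), (144,28,445)]),
    (-60, 176, .tr 13 0 [(36,18,890), (144,19,445), (1296,73,157)])]).covA 783 8 (by decide +kernel)

theorem k17_538 : Cov 0 0 0 (-8160) 15 3518743
    (sk (nat_lit 25) (tG (H3 mdM) Res 0 0 0)) 538 539 :=
  (snd3 mdM [(-90, -110, .tr 31 0 []),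
    (-90, -250, .tr 31 0 []),
    (-90, -355, .tr 31 0 []),
    (-90, 110, .tr 31 0 []),
    (-90, 250, .tr 31 0 []),
    (-90, 355, .tr 31 0 [])]).covK (nat_lit 25) 538 1 (by decide +kernel)

end Pool.Agent.MP_b2c033_nt.U.Ch2
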