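import Pool.Agent.MP_b2c033_nt.UC.Ch2.G3

/-! A part of the finite check. -/

namespace Pool.Agent.MP_b2c033_nt.U.Ch2

set_option maxRecDepth 100000

theorem k2_622 : Cov 0 1 1 (-630) 1 2194972623
    (tG (H3 mdM) Res 0 1 1) 622 632 :=
  (snd3 mdM [(-7, 3, .tr 31 0 []),
    (-5, -8, .tr 31 0 []),
    (-5, 3, .tr 31 0 []),
    (-3, -2, .tr 31 0 []),
    (-3, -5, .tr 31 0 []),
    (-3, -8, .tr 31 0 []),
    (-3, 0, .tr 31 0 []),
    (-3, 1, .tr 13 37 []),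
    (-2, -2, .tr 31 0 []),
    (-1, -1, .tr 31 0 []),
    (-1, -6, .tr 31 0 []),
    (-1, 0, .tr 13 35 []),
    (-1, 3, .tr 31 0 []),
    (0, 0, .tr 31 0 []),
    (1, 0, .pos),
    (1, -2, .tr 31 0 []),
    (1, -3, .tr 31 0 []),
    (1, -5, .tr 31 0 []),
    (1, 1, .tr 31 0 []),
    (1, 4, .tr 31 0 [])]).cov 622 10 (by decide +kernel)

theorem k3_0 : Cov 1 (-1) 0 (-632) 3 2194972623
    (tG (H3 mdM) Res 1 (-1) 0) 0 213 :=
  (snd3 mdM [(-8, -7, .tr 31 0 []),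
    (-5, -2, .tr 31 0 []),
    (-5, 2, .tr 31 0 []),
    (-5, 4, .tr 31 0 []),
    (-2, 0, .tr 31 0 []),
    (-2, -1, .pos),
    (-2, -3, .tr 31 0 []),
    (-2, 2, .tr 31 0 []),
    (-2, 5, .tr 31 0 []),
    (1, -4, .tr 31 0 []),
    (1, 0, .tr 13 55 []),
    (1, 2, .tr 31 0 []),
    (4, -1, .tr 31 0 []),
    (4, -3, .tr 31 0 []),
    (4, 1, .tr 31 0 [])]).cov 0 213 (by decide +kernel)

theorem k6_623 : Cov 1 0 1 (-630) 1 2194972623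
    (tG (H3 mdM) Res 1 0 1) 623 646 :=
  (snd3 mdM [(-5, -5, .tr 31 0 []),
    (-5, 3, .tr 31 0 []),
    (-3, -1, .tr 31 0 []),
    (-3, -3, .tr 31 0 []),
    (-3, 0, .tr 31 0 []),
    (-2, -1, .tr 31 0 []),
    (-2, 1, .tr 31 0 []),
    (-1, -2, .tr 13 50 []),
    (-1, -5, .tr 31 0 []),
    (-1, 0, .pos),
    (-1, 1, .tr 31 0 []),
    (0, -1, .tr 31 0 []),
    (0, -3, .tr 31 0 []),
    (0, 0, .tr 13 26 []),
    (0, 3, .tr 31 0 []),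
    (1, 2, .tr 13 30 []),
    (4, -6, .tr 13 14 [])]).cov 623 23 (by decide +kernel)

theorem k17_533 : Cov 0 0 0 (-8160) 15 3518743
    (sk (nat_lit 25) (tG (H3 mdM) Res 0 0 0)) 533 537 :=
  (snd3 mdM [(-150, -700, .tr 31 0 []),
    (-150, 700, .tr 31 0 []),
    (-120, -500, .tr 31 0 []),
    (-120, 500, .tr 31 0 [])]).covK (nat_lit 25) 533 4 (by decide +kernel)

end Pool.Agent.MP_b2c033_nt.U.Ch2
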