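import Pool.Agent.MP_b2c033_nt.UC.Ch2.G7

/-! A part of the finite check. -/

namespace Pool.Agent.MP_b2c033_nt.U.Ch2

set_option maxRecDepth 100000

theorem k12_1981 : Cov 0 (-1) 0 (-1890) 1 139314069
    (tG (H3 mdM) Res 0 (-1) 0) 1981 1986 :=
  (snd3 mdM []).cov 1981 5 (by decide +kernel)

theorem k14_1981 : Cov 0 1 0 (-1890) 1 139314069
    (tG (H3 mdM) Res 0 1 0) 1981 1986 :=
  (snd3 mdM []).cov 1981 5 (by decide +kernel)

def ek15_807 : List (ℤ × ℤ × Ct) :=
  [(-9, 0, .tr 151 0 [(36,10,785), (72,18,666), (144,29,471), (324,51,314), (432,56,272), (576,65,236), (648,70,234), (1296,95,192), (2304,119,118), (5184,175,79)]),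
    (-9, -2, .tr 31 0 []),
    (-9, -3, .tr 31 0 []),
    (-9, -5, .tr 31 0 []),
    (-9, -6, .tr 61 0 [(36,10,785), (72,12,592), (144,18,445), (324,31,314), (576,46,236), (1296,92,157)]),
    (-9, -9, .tr 101 1296 [(36,10,890), (72,13,592), (144,19,445), (324,33,297), (432,40,272), (576,48,236), (2304,112,118), (5184,173,79)]),
    (-9, -10, .tr 101 0 [(36,10,838), (72,16,629), (108,19,484), (144,21,445), (324,32,297), (432,37,272), (576,44,223), (648,47,210), (1296,73,166), (2304,101,118), (5184,171,79)]),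
    (-9, -11, .tr 31 0 []),
    (-9, -12, .tr 61 0 [(36,10,785), (72,19,666), (144,24,445), (324,37,297), (432,43,272), (576,50,236), (1296,78,157)]),
    (-9, -17, .tr 31 0 []),
    (-9, -18, .tr 13 0 [(36,10,785), (72,16,629), (144,26,471), (324,38,314), (576,49,236), (1296,75,157), (2304,105,118)]),
    (-9, -28, .tr 31 0 []),
    (-9, 2, .tr 31 0 []),
    (-9, 3, .tr 31 0 []),
    (-9, 5, .tr 31 0 []),
    (-9, 6, .tr 61 0 [(36,11,838), (72,13,629), (144,20,445), (324,34,297), (576,49,236), (1296,81,157)]),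
    (-9, 9, .tr 101 324 [(36,10,838), (72,12,629), (144,18,445), (432,36,272), (576,44,223), (1296,74,157), (2304,112,144), (5184,182,96)]),
    (-9, 10, .tr 101 0 [(36,10,785), (72,16,592), (108,19,544), (144,23,445), (324,37,314), (432,45,272), (576,55,236), (648,59,272), (1296,100,192), (2304,122,144), (5184,187,79)]),
    (-9, 11, .tr 31 0 []),
    (-9, 12, .tr 61 0 [(36,10,785), (72,17,666), (144,25,445), (324,35,297), (432,40,272), (576,47,236), (1296,76,157)]),
    (-9, 17, .tr 31 0 []),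
    (-9, 18, .tr 61 0 [(36,10,838), (72,17,666), (144,24,471), (324,43,314), (576,52,236), (1296,79,192)]),
    (-9, 28, .tr 31 0 [])]

theorem k15_807_c0 : Cov 0 0 0 (-2430) 3 75418890
    (sr (nat_lit 1) (nat_lit 0) (ss (nat_lit 0) (skA (tG (H3 mdM) Res 0 0 0)))) 807 808 :=
  (snd3 mdM ek15_807).scovA (nat_lit 1) (nat_lit 0) (nat_lit 0) 807 1 (by decide +kernel)

theorem k15_807_c1 : Cov 0 0 0 (-2430) 3 75418890
    (sr (nat_lit 1) (nat_lit 0) (ss (nat_lit 1) (skA (tG (H3 mdM) Res 0 0 0)))) 807 808 :=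
  (snd3 mdM ek15_807).scovA (nat_lit 1) (nat_lit 0) (nat_lit 1) 807 1 (by decide +kernel)

theorem k15_807 : Cov 0 0 0 (-2430) 3 75418890
    (skA (tG (H3 mdM) Res 0 0 0)) 807 808 :=
  Cov.cls 1 (by decide) fun i hi => by
    interval_cases i
    exacts [k15_807_c0.sgn k15_807_c1]

end Pool.Agent.MP_b2c033_nt.U.Ch2
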