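import Pool.Agent.MP_b2c033_nt.UC.Ch2.G26

/-! A part of the finite check. -/

namespace Pool.Agent.MP_b2c033_nt.U.Ch2

set_option maxRecDepth 100000

theorem k12_1822 : Cov 0 (-1) 0 (-1890) 1 139314069
    (tG (H3 mdM) Res 0 (-1) 0) 1822 1847 :=
  (snd3 mdM [(-66, 230, .tr 13 0 [(20,5,1054), (80,17,562)]),
    (-64, 220, .tr 31 24 [(12,4,1360), (48,10,726), (192,23,408)]),
    (-63, -173, .tr 31 0 []),
    (-53, -115, .nm 2 3 0 0),
    (-53, 141, .nm 2 3 0 0),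
    (-46, -106, .tr 31 0 [])]).cov 1822 25 (by decide +kernel)

theorem k13_631 : Cov 0 0 0 (-1889) 3 139314069
    (tG (H3 mdM) Res 0 0 0) 631 639 :=
  (snd3 mdM [(4, 0, .pos),
    (4, -4, .tr 31 0 []),
    (4, -16, .tr 13 0 [(28,9,950), (112,16,505)]),
    (4, 4, .tr 31 0 []),
    (4, 16, .tr 13 0 [(28,9,950), (112,16,505)]),
    (10, 0, .tr 31 0 [(100,17,503), (400,40,283)]),
    (10, -7, .tr 31 0 []),
    (10, 7, .tr 31 0 []),
    (13, -34, .tr 13 0 [(20,6,1054), (80,15,562)]),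
    (13, 34, .tr 13 80 [(20,6,1054)]),
    (16, 0, .nm 2 0 0 0),
    (25, 0, .tr 13 0 [(400,39,267)])]).cov 631 8 (by decide +kernel)

theorem k15_799 : Cov 0 0 0 (-2430) 3 75418890
    (skA (tG (H3 mdM) Res 0 0 0)) 799 800 :=
  (snd3 mdM [(-33, -33, .tr 31 0 []),
    (-33, -37, .tr 31 0 []),
    (-33, -58, .tr 31 0 []),
    (-33, -72, .tr 31 0 []),
    (-33, -73, .tr 61 0 [(720,56,211)]),
    (-33, -74, .tr 31 0 []),
    (-33, -93, .tr 31 0 []),
    (-33, 33, .tr 31 0 []),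
    (-33, 37, .tr 31 0 []),
    (-33, 58, .tr 31 0 []),
    (-33, 72, .tr 31 0 []),
    (-33, 73, .tr 61 0 [(720,63,211)]),
    (-33, 74, .tr 31 0 []),
    (-33, 93, .tr 31 0 [])]).covA 799 1 (by decide +kernel)

theorem k17_545 : Cov 0 0 0 (-8160) 15 3518743
    (sk (nat_lit 25) (tG (H3 mdM) Res 0 0 0)) 545 546 :=
  (snd3 mdM [(15, 0, .tr 101 0 []),
    (15, -5, .tr 31 0 []),
    (15, -10, .tr 31 0 []),
    (15, -15, .tr 31 0 []),
    (15, -30, .tr 31 0 []),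
    (15, -70, .tr 31 0 []),
    (15, -80, .tr 31 0 []),
    (15, -110, .tr 31 0 []),
    (15, -180, .tr 31 0 []),
    (15, -275, .tr 31 0 []),
    (15, 5, .tr 31 0 []),
    (15, 10, .tr 31 0 []),
    (15, 15, .tr 31 0 []),
    (15, 30, .tr 31 0 []),
    (15, 70, .tr 31 0 []),
    (15, 80, .tr 31 0 []),
    (15, 110, .tr 31 0 []),
    (15, 180, .tr 31 0 []),
    (15, 275, .tr 31 0 [])]).covK (nat_lit 25) 545 1 (by decide +kernel)

end Pool.Agent.MP_b2c033_nt.U.Ch2
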