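import Pool.Agent.MP_b2c033_nt.UC.Ch2.G33

/-! A part of the finite check. -/

namespace Pool.Agent.MP_b2c033_nt.U.Ch2

set_option maxRecDepth 100000

theorem k0_632 : Cov 0 (-1) 1 (-630) 1 2194972623
    (tG (H3 mdM) Res 0 (-1) 1) 632 669 :=
  (snd3 mdM [(3, -6, .tr 31 0 []),
    (3, 0, .tr 31 0 []),
    (3, 1, .tr 31 0 []),
    (3, 3, .tr 31 0 []),
    (5, -5, .tr 31 0 []),
    (7, -3, .tr 31 0 [])]).cov 632 37 (by decide +kernel)

theorem k9_0 : Cov 0 0 1 (-1710) 3 177978515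
    (tG (H3 mdM) Res 0 0 1) 0 546 :=
  (snd3 mdM [(-270, -1708, .tr 13 0 [(9,3,1571)])]).cov 0 546 (by decide +kernel)

theorem k11_547 : Cov 1 (-1) 1 (-1709) 3 177978515
    (tG (H3 mdM) Res 1 (-1) 1) 547 569 :=
  (snd3 mdM [(-56, 163, .tr 13 0 [(18,5,1111)]),
    (-29, -53, .tr 13 0 [(18,5,1111)]),
    (-29, 37, .tr 13 0 [(18,5,1111)]),
    (-20, -29, .tr 13 0 [(18,5,1111), (54,12,641), (162,26,444)]),
    (-14, 29, .tr 13 0 [(18,5,1111), (162,20,568)]),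
    (-11, -11, .tr 13 0 [(18,5,1111), (54,10,684), (162,21,444)]),
    (-11, 16, .tr 13 0 [(63,11,633)]),
    (-5, 2, .tr 31 0 [(225,28,356)]),
    (-5, 5, .tr 13 162 [(18,5,1111), (54,11,727), (144,22,445), (1296,75,157), (1458,79,148)])]).cov 547 22 (by decide +kernel)

theorem k15_794 : Cov 0 0 0 (-2430) 3 75418890
    (skA (tG (H3 mdM) Res 0 0 0)) 794 798 :=
  (snd3 mdM [(-48, -64, .nm 2 0 0 0),
    (-48, -124, .tr 31 0 []),
    (-48, -256, .nm 2 0 0 0),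
    (-48, 64, .nm 2 0 0 0),
    (-48, 124, .tr 31 0 []),
    (-48, 256, .nm 2 0 0 0),
    (-45, -114, .tr 31 0 []),
    (-45, -116, .tr 31 0 []),
    (-45, 114, .tr 31 0 []),
    (-45, 116, .tr 31 0 []),
    (-39, -70, .tr 13 0 [(144,23,445), (1296,74,157)]),
    (-39, -92, .tr 13 0 [(36,9,890), (144,22,445), (1296,84,157)]),
    (-39, -94, .tr 13 1296 [(36,10,838), (144,18,445)]),
    (-39, 70, .tr 13 144 [(1296,77,157)]),
    (-39, 92, .tr 13 0 [(36,10,838), (144,21,471), (1296,81,157)]),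
    (-39, 94, .tr 13 0 [(36,10,890), (144,20,445), (1296,77,157)])]).covA 794 4 (by decide +kernel)

end Pool.Agent.MP_b2c033_nt.U.Ch2
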