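import Pool.Agent.MP_b2c033_nt.UC.Ch2.G36

/-! A part of the finite check. -/

namespace Pool.Agent.MP_b2c033_nt.U.Ch2

set_option maxRecDepth 100000

theorem k12_1133 : Cov 0 (-1) 0 (-1890) 1 139314069
    (tG (H3 mdM) Res 0 (-1) 0) 1133 1749 :=
  (snd3 mdM [(-384, -2772, .tr 13 0 [(12,4,1360), (48,10,726)]),
    (-257, -1503, .tr 13 0 [(12,4,1360), (48,12,726)])]).cov 1133 616 (by decide +kernel)

theorem k15_773 : Cov 0 0 0 (-2430) 3 75418890
    (skA (tG (H3 mdM) Res 0 0 0)) 773 783 :=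
  (snd3 mdM [(-108, -336, .tr 13 0 [(144,20,471)]),
    (-108, 336, .tr 13 0 [(144,20,445)]),
    (-99, -378, .tr 13 0 [(144,29,471), (1296,95,192)]),
    (-99, 378, .tr 13 0 [(144,29,471), (1296,95,192)]),
    (-84, -296, .tr 13 0 [(36,10,890), (144,19,471), (1296,84,157)]),
    (-84, 296, .tr 13 0 [(36,10,838), (144,18,602), (1296,93,192)])]).covA 773 10 (by decide +kernel)

theorem k15_829 : Cov 0 0 0 (-2430) 3 75418890
    (skA (tG (H3 mdM) Res 0 0 0)) 829 849 :=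
  (snd3 mdM []).covA 829 20 (by decide +kernel)

def ek16_227 : List (ℤ × ℤ × Ct) :=
  [(105, -35, .tr 31 0 []),
    (105, -175, .tr 31 0 []),
    (105, -210, .tr 31 0 []),
    (105, -595, .tr 31 0 []),
    (105, -770, .tr 31 0 []),
    (105, 35, .tr 31 0 []),
    (105, 175, .tr 31 0 []),
    (105, 210, .tr 31 0 []),
    (105, 595, .tr 31 0 []),
    (105, 770, .tr 31 0 [])]

theorem k16_227_c0 : Cov 0 0 0 (-4746) 21 13841287
    (sr (nat_lit 2) (nat_lit 0) (sk (nat_lit 49) (tG (H3 mdM) Res 0 0 0))) 227 232 :=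
  (snd3 mdM ek16_227).rcovK (nat_lit 2) (nat_lit 0) (nat_lit 49) 227 5 (by decide +kernel)

theorem k16_227_c2 : Cov 0 0 0 (-4746) 21 13841287
    (sr (nat_lit 2) (nat_lit 1) (sk (nat_lit 49) (tG (H3 mdM) Res 0 0 0))) 227 232 :=
  (snd3 mdM ek16_227).rcovK (nat_lit 2) (nat_lit 1) (nat_lit 49) 227 5 (by decide +kernel)

theorem k16_227 : Cov 0 0 0 (-4746) 21 13841287
    (sk (nat_lit 49) (tG (H3 mdM) Res 0 0 0)) 227 232 :=
  Cov.cls 2 (by decide) fun i hi => by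
    interval_cases i
    exacts [k16_227_c0, k16_227_c2]

end Pool.Agent.MP_b2c033_nt.U.Ch2
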