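import Pool.Agent.MP_b2c033_nt.UC.Ch2.G1

/-! A part of the finite check. -/

namespace Pool.Agent.MP_b2c033_nt.U.Ch2

set_option maxRecDepth 100000

theorem k0_620 : Cov 0 (-1) 1 (-630) 1 2194972623
    (tG (H3 mdM) Res 0 (-1) 1) 620 632 :=
  (snd3 mdM [(-7, -5, .tr 31 0 []),
    (-7, 10, .tr 13 121 []),
    (-5, -3, .tr 31 0 []),
    (-3, 0, .tr 31 0 []),
    (-3, -3, .tr 31 0 []),
    (-3, -6, .tr 31 0 []),
    (-3, 1, .tr 31 0 []),
    (-3, 4, .tr 31 0 []),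
    (-3, 6, .tr 31 0 []),
    (-1, 0, .tr 31 0 []),
    (-1, -5, .tr 31 0 []),
    (0, 0, .pos),
    (1, -3, .tr 31 0 []),
    (1, -6, .tr 31 0 []),
    (1, 0, .tr 31 0 []),
    (1, 1, .tr 31 0 []),
    (1, 3, .tr 31 0 [])]).cov 620 12 (by decide +kernel)

theorem k12_1876 : Cov 0 (-1) 0 (-1890) 1 139314069
    (tG (H3 mdM) Res 0 (-1) 0) 1876 1882 :=
  (snd3 mdM [(-13, -3, .tr 13 0 [(400,44,283)]),
    (-13, -7, .tr 31 0 []),
    (-13, -11, .tr 13 0 [(12,4,1360), (24,8,1154), (48,11,726), (192,26,408), (768,60,204)]),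
    (-13, 21, .tr 13 256 [(4,1,2356), (8,2,1666), (16,4,1178), (32,7,944), (64,13,628)]),
    (-13, 23, .tr 31 0 []),
    (-13, 37, .tr 31 0 []),
    (-13, 85, .tr 13 0 [(12,4,1360), (48,10,726)]),
    (-11, -11, .tr 13 0 [(44,10,758), (176,24,403)]),
    (-11, 15, .tr 13 0 [(240,26,365)]),
    (-10, -8, .tr 31 0 [(240,31,345)]),
    (-10, 10, .tr 13 0 [(240,28,345)]),
    (-9, -7, .tr 13 0 [(4,1,2356), (8,2,1666), (16,4,1178), (32,8,833), (64,13,668), (256,31,353)]),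
    (-9, 9, .tr 31 192 [(12,4,1360), (24,10,1026), (48,10,680)])]).cov 1876 6 (by decide +kernel)

def ek16_0 : List (ℤ × ℤ × Ct) :=
  [(-420, -3325, .tr 31 0 []),
    (-420, 3325, .tr 31 0 []),
    (-210, -770, .tr 31 0 []),
    (-210, -1050, .tr 31 0 []),
    (-210, 770, .tr 31 0 []),
    (-210, 1050, .tr 31 0 [])]

theorem k16_0_c0 : Cov 0 0 0 (-4746) 21 13841287
    (sr (nat_lit 2) (nat_lit 0) (sk (nat_lit 49) (tG (H3 mdM) Res 0 0 0))) 0 217 :=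
  (snd3 mdM ek16_0).rcovK (nat_lit 2) (nat_lit 0) (nat_lit 49) 0 217 (by decide +kernel)

theorem k16_0_c2 : Cov 0 0 0 (-4746) 21 13841287
    (sr (nat_lit 2) (nat_lit 1) (sk (nat_lit 49) (tG (H3 mdM) Res 0 0 0))) 0 217 :=
  (snd3 mdM ek16_0).rcovK (nat_lit 2) (nat_lit 1) (nat_lit 49) 0 217 (by decide +kernel)

theorem k16_0 : Cov 0 0 0 (-4746) 21 13841287
    (sk (nat_lit 49) (tG (H3 mdM) Res 0 0 0)) 0 217 :=
  Cov.cls 2 (by decide) fun i hi => by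
    interval_cases i
    exacts [k16_0_c0, k16_0_c2]

theorem k17_542 : Cov 0 0 0 (-8160) 15 3518743
    (sk (nat_lit 25) (tG (H3 mdM) Res 0 0 0)) 542 543 :=
  (snd3 mdM [(-30, -35, .tr 31 0 []),
    (-30, -40, .tr 31 0 []),
    (-30, -70, .tr 31 0 []),
    (-30, -75, .tr 31 0 []),
    (-30, -95, .tr 31 0 []),
    (-30, -110, .tr 31 0 []),
    (-30, -145, .tr 31 0 []),
    (-30, 35, .tr 31 0 []),
    (-30, 40, .tr 31 0 []),
    (-30, 70, .tr 31 0 []),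
    (-30, 75, .tr 31 0 []),
    (-30, 95, .tr 31 0 []),
    (-30, 110, .tr 31 0 []),
    (-30, 145, .tr 31 0 [])]).covK (nat_lit 25) 542 1 (by decide +kernel)

end Pool.Agent.MP_b2c033_nt.U.Ch2
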