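import Pool.Agent.MP_b2c033_nt.UC.Ch2.G39

/-! A part of the finite check. -/

namespace Pool.Agent.MP_b2c033_nt.U.Ch2

set_option maxRecDepth 100000

theorem k10_570 : Cov 1 (-1) 0 (-1710) 3 177978515
    (tG (H3 mdM) Res 1 (-1) 0) 570 584 :=
  (snd3 mdM [(0, -1, .tr 31 0 []),
    (0, -3, .tr 13 567 [(63,13,633)]),
    (0, -5, .tr 13 45 [(405,36,265)]),
    (0, 1, .tr 13 405 [(45,13,749)]),
    (3, -1, .tr 13 162 [(18,7,1111), (54,12,727), (144,24,471), (1296,94,157), (1458,96,181)]),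
    (3, -4, .tr 31 0 [(225,25,356), (2025,104,126)]),
    (3, 1, .tr 61 0 [(450,41,267)]),
    (3, 5, .tr 13 0 [(18,7,1111), (54,12,684), (162,22,395)]),
    (12, 8, .tr 13 0 [(18,6,1259), (162,25,444)])]).cov 570 14 (by decide +kernel)

theorem k12_1847 : Cov 0 (-1) 0 (-1890) 1 139314069
    (tG (H3 mdM) Res 0 (-1) 0) 1847 1866 :=
  (snd3 mdM [(-41, 116, .tr 13 80 [(20,5,1054)]),
    (-38, -78, .tr 31 0 []),
    (-37, -35, .nm 2 3 0 0),
    (-37, 93, .nm 2 3 0 0),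
    (-35, -69, .tr 13 0 [(12,4,1360), (24,9,962), (48,10,680)]),
    (-32, -60, .tr 31 0 [(12,4,1360), (24,8,962), (48,13,771), (192,29,408)]),
    (-29, 69, .tr 13 0 [(12,4,1360), (24,11,1026), (48,10,726), (192,24,385)]),
    (-28, -48, .tr 13 400 []),
    (-25, -119, .tr 13 0 [(12,4,1360), (48,10,680)]),
    (-25, 57, .tr 13 0 [(20,5,1054), (80,15,562)])]).cov 1847 19 (by decide +kernel)

theorem k15_802 : Cov 0 0 0 (-2430) 3 75418890
    (skA (tG (H3 mdM) Res 0 0 0)) 802 803 :=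
  (snd3 mdM [(-24, 0, .tr 31 0 [(36,10,785), (144,29,471), (1296,87,157)]),
    (-24, -32, .tr 31 0 [(36,10,785), (144,23,445), (1296,100,192)]),
    (-24, -48, .tr 13 0 [(36,9,890), (144,22,445), (1296,84,192)]),
    (-24, -64, .tr 13 0 [(36,10,785), (144,18,445)]),
    (-24, 32, .tr 31 0 [(36,10,838), (144,21,445), (1296,73,166)]),
    (-24, 48, .tr 13 0 [(36,10,838), (144,20,445), (1296,71,157)]),
    (-24, 64, .tr 13 0 [(36,10,890), (144,20,471)])]).covA 802 1 (by decide +kernel)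

theorem k15_818 : Cov 0 0 0 (-2430) 3 75418890
    (skA (tG (H3 mdM) Res 0 0 0)) 818 820 :=
  (snd3 mdM [(24, 0, .tr 31 0 [(36,11,838), (144,19,445), (1296,88,157)]),
    (24, -16, .tr 31 0 [(36,11,890), (144,20,419), (1296,75,157)]),
    (24, -32, .tr 13 0 [(36,9,838), (144,22,471)]),
    (24, -56, .tr 13 0 [(144,20,445), (1296,78,157)]),
    (24, -64, .tr 13 0 [(144,22,445)]),
    (24, 16, .tr 31 0 [(36,11,838), (144,19,445), (1296,77,157)]),
    (24, 32, .tr 13 0 [(36,9,890), (144,27,471)]),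
    (24, 56, .tr 13 0 [(144,19,445), (1296,73,157)]),
    (24, 64, .tr 13 0 [(144,18,445)]),
    (27, 0, .tr 31 0 []),
    (27, -54, .tr 61 0 [(36,12,890), (144,20,445), (1296,81,157)]),
    (27, 54, .tr 61 0 [(36,14,995), (144,21,419), (1296,84,157)])]).covA 818 2 (by decide +kernel)

end Pool.Agent.MP_b2c033_nt.U.Ch2
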