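import Pool.Agent.MP_b2c033_nt.UC.Ch2.G19

/-! A part of the finite check. -/

namespace Pool.Agent.MP_b2c033_nt.U.Ch2

set_option maxRecDepth 100000

theorem k6_0 : Cov 1 0 1 (-630) 1 2194972623
    (tG (H3 mdM) Res 1 0 1) 0 623 :=
  (snd3 mdM [(-11, 12, .pos)]).cov 0 623 (by decide +kernel)

theorem k12_1882 : Cov 0 (-1) 0 (-1890) 1 139314069
    (tG (H3 mdM) Res 0 (-1) 0) 1882 1885 :=
  (snd3 mdM [(-8, 0, .tr 31 0 []),
    (-8, -6, .tr 31 0 [(336,37,308)]),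
    (-8, -8, .tr 31 0 [(100,17,503), (400,45,283)]),
    (-8, -16, .tr 13 112 []),
    (-8, 6, .tr 31 0 []),
    (-8, 8, .tr 13 0 [(28,7,891), (112,19,534)]),
    (-8, 10, .tr 31 0 []),
    (-8, 13, .tr 31 0 []),
    (-7, -2, .tr 31 0 []),
    (-7, -5, .tr 61 768 [(12,4,1360), (24,8,962), (48,11,771), (96,17,513), (192,26,385)]),
    (-7, 3, .tr 13 0 [(28,6,1009), (112,17,505)]),
    (-7, 7, .tr 31 0 [(336,36,308)]),
    (-7, 10, .tr 31 336 [(84,17,548)]),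
    (-6, 0, .tr 31 0 [(240,27,345)]),
    (-6, -4, .tr 13 0 [(20,5,1054), (40,9,795), (80,16,562), (320,36,316), (1280,74,158)]),
    (-6, 4, .tr 31 0 []),
    (-6, 6, .tr 31 0 []),
    (-6, 18, .tr 13 0 [(12,4,1360), (24,7,1090), (48,14,816)])]).cov 1882 3 (by decide +kernel)

theorem k17_541 : Cov 0 0 0 (-8160) 15 3518743
    (sk (nat_lit 25) (tG (H3 mdM) Res 0 0 0)) 541 542 :=
  (snd3 mdM [(-45, -100, .tr 31 0 []),
    (-45, -105, .tr 31 0 []),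
    (-45, -110, .tr 31 0 []),
    (-45, -170, .tr 31 0 []),
    (-45, 100, .tr 31 0 []),
    (-45, 105, .tr 31 0 []),
    (-45, 110, .tr 31 0 []),
    (-45, 170, .tr 31 0 [])]).covK (nat_lit 25) 541 1 (by decide +kernel)

theorem k21_601 : Cov 0 0 0 (-1888) 3 139314069
    (tG (H3 mdM) Res 0 0 0) 601 622 :=
  (snd3 mdM [(-64, 0, .nm 2 0 0 0),
    (-52, -144, .tr 13 0 [(20,6,1054), (80,19,597)]),
    (-52, 144, .tr 13 0 [(20,6,1054), (80,15,562)]),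
    (-40, -96, .tr 13 0 [(112,17,505)]),
    (-40, 96, .tr 13 0 [(112,18,505)]),
    (-28, -48, .tr 13 0 [(20,6,1054), (80,13,597)]),
    (-28, 48, .tr 13 0 [(20,6,1054), (80,16,562)]),
    (-25, 0, .tr 13 0 [(400,35,283)])]).cov 601 21 (by decide +kernel)

end Pool.Agent.MP_b2c033_nt.U.Ch2
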