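import Pool.Agent.MP_b2c033_nt.UC.Ch2.Spl

/-! A part of the finite check. -/

namespace Pool.Agent.MP_b2c033_nt.U.Ch2

set_option maxRecDepth 100000

theorem k7_0 : Cov 1 1 0 (-630) 1 2194972623
    (tG (H3 mdM) Res 1 1 0) 0 624 :=
  (snd3 mdM []).cov 0 624 (by decide +kernel)

theorem k15_803 : Cov 0 0 0 (-2430) 3 75418890
    (skA (tG (H3 mdM) Res 0 0 0)) 803 804 :=
  (snd3 mdM [(-21, -20, .tr 13 0 [(36,10,838), (144,18,445), (1296,76,157)]),
    (-21, -34, .tr 13 0 [(36,10,838), (144,18,445), (576,47,236), (1296,90,157), (2304,108,118)]),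
    (-21, -37, .tr 151 1296 [(36,9,838), (72,15,629), (144,24,445), (324,43,314), (432,47,272), (576,55,236), (2304,125,118)]),
    (-21, -38, .tr 31 0 [(36,9,785), (144,20,445)]),
    (-21, 20, .tr 13 0 [(36,12,890), (144,22,445), (1296,82,157)]),
    (-21, 34, .tr 61 0 [(36,12,890), (144,21,445), (1296,101,157)]),
    (-21, 37, .tr 101 324 [(36,9,890), (72,16,592), (144,25,471), (432,53,272), (576,59,236), (1296,89,157), (2304,119,118), (5184,177,79)]),
    (-21, 38, .tr 31 0 [(36,10,785), (144,22,445)])]).covA 803 1 (by decide +kernel)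

theorem k15_816 : Cov 0 0 0 (-2430) 3 75418890
    (skA (tG (H3 mdM) Res 0 0 0)) 816 818 :=
  (snd3 mdM [(18, 0, .tr 13 0 [(36,9,1204), (144,18,602), (1296,83,157)]),
    (18, -7, .tr 31 0 []),
    (18, -11, .tr 31 0 []),
    (18, -19, .tr 31 0 []),
    (18, -44, .tr 31 0 []),
    (18, 7, .tr 31 0 []),
    (18, 11, .tr 31 0 []),
    (18, 19, .tr 31 0 []),
    (18, 44, .tr 31 0 []),
    (21, -26, .nm 2 3 1 0),
    (21, 26, .tr 13 0 [(36,10,890), (144,19,419), (1296,73,157)])]).covA 816 2 (by decide +kernel)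

def ek17_529 : List (ℤ × ℤ × Ct) :=
  [(-210, -770, .tr 31 0 []),
    (-210, -1050, .tr 31 0 []),
    (-210, 770, .tr 31 0 []),
    (-210, 1050, .tr 31 0 [])]

theorem k17_529_c0 : Cov 0 0 0 (-8160) 15 3518743
    (sr (nat_lit 2) (nat_lit 0) (sk (nat_lit 25) (tG (H3 mdM) Res 0 0 0))) 529 533 :=
  (snd3 mdM ek17_529).rcovK (nat_lit 2) (nat_lit 0) (nat_lit 25) 529 4 (by decide +kernel)

theorem k17_529_c2 : Cov 0 0 0 (-8160) 15 3518743
    (sr (nat_lit 2) (nat_lit 1) (sk (nat_lit 25) (tG (H3 mdM) Res 0 0 0))) 529 533 :=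
  (snd3 mdM ek17_529).rcovK (nat_lit 2) (nat_lit 1) (nat_lit 25) 529 4 (by decide +kernel)

theorem k17_529 : Cov 0 0 0 (-8160) 15 3518743
    (sk (nat_lit 25) (tG (H3 mdM) Res 0 0 0)) 529 533 :=
  Cov.cls 2 (by decide) fun i hi => by
    interval_cases i
    exacts [k17_529_c0, k17_529_c2]

end Pool.Agent.MP_b2c033_nt.U.Ch2
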