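import Pool.Agent.MP_b2c033_nt.UC.Ch2.G0

/-! A part of the finite check. -/

namespace Pool.Agent.MP_b2c033_nt.U.Ch2

set_option maxRecDepth 100000

theorem k2_0 : Cov 0 1 1 (-630) 1 2194972623
    (tG (H3 mdM) Res 0 1 1) 0 622 :=
  (snd3 mdM [(-9, -14, .tr 31 0 []),
    (-9, 7, .tr 31 0 [])]).cov 0 622 (by decide +kernel)

theorem k2_632 : Cov 0 1 1 (-630) 1 2194972623
    (tG (H3 mdM) Res 0 1 1) 632 669 :=
  (snd3 mdM [(2, 0, .tr 31 0 []),
    (3, 0, .tr 31 0 []),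
    (3, -2, .tr 31 0 []),
    (3, 1, .tr 31 0 []),
    (3, 3, .tr 31 0 []),
    (3, 4, .tr 31 0 []),
    (5, 0, .tr 31 0 []),
    (5, 2, .tr 31 0 []),
    (5, 3, .tr 31 0 []),
    (7, 1, .tr 31 0 [])]).cov 632 37 (by decide +kernel)

theorem k11_569 : Cov 1 (-1) 1 (-1709) 3 177978515
    (tG (H3 mdM) Res 1 (-1) 1) 569 588 :=
  (snd3 mdM [(-2, -1, .tr 13 0 [(90,16,530), (810,61,199)]),
    (-2, -2, .tr 31 0 [(63,12,633)]),
    (-2, 4, .tr 13 0 [(45,10,749), (405,40,281)]),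
    (1, -1, .tr 13 54 [(18,5,1111), (36,10,838), (144,19,419), (162,20,568), (1296,94,192), (1458,83,148)]),
    (1, 0, .tr 31 0 []),
    (4, -1, .tr 13 162 [(18,5,1111), (54,11,641)]),
    (25, 1, .tr 13 0 [(18,5,1111)])]).cov 569 19 (by decide +kernel)

theorem k15_791 : Cov 0 0 0 (-2430) 3 75418890
    (skA (tG (H3 mdM) Res 0 0 0)) 791 794 :=
  (snd3 mdM [(-57, -166, .tr 31 0 []),
    (-57, 166, .tr 31 0 []),
    (-54, 0, .tr 13 0 [(144,24,445)]),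
    (-54, -108, .tr 13 0 [(144,22,445)]),
    (-54, -144, .tr 13 0 [(144,20,419)]),
    (-54, -153, .tr 31 0 [(36,9,890), (144,23,445), (1296,83,157)]),
    (-54, -162, .tr 13 0 [(144,21,419)]),
    (-54, 108, .tr 13 0 [(144,22,471)]),
    (-54, 144, .tr 13 0 [(144,18,445)]),
    (-54, 153, .tr 31 0 [(36,10,838), (144,22,419), (1296,72,157)]),
    (-54, 162, .tr 13 0 [(144,21,445)]),
    (-51, -140, .tr 31 0 []),
    (-51, -142, .tr 13 0 [(36,9,838), (144,22,471), (1296,83,192)]),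
    (-51, 140, .tr 31 0 []),
    (-51, 142, .nm 2 3 1 4)]).covA 791 3 (by decide +kernel)

end Pool.Agent.MP_b2c033_nt.U.Ch2
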