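import Pool.Agent.MP_b2c033_nt.UC.Ch2.Spl

/-! A part of the finite check. -/

namespace Pool.Agent.MP_b2c033_nt.U.Ch2

set_option maxRecDepth 100000

theorem k11_0 : Cov 1 (-1) 1 (-1709) 3 177978515
    (tG (H3 mdM) Res 1 (-1) 1) 0 547 :=
  (snd3 mdM []).cov 0 547 (by decide +kernel)

theorem k15_0 : Cov 0 0 0 (-2430) 3 75418890
    (skA (tG (H3 mdM) Res 0 0 0)) 0 757 :=
  (snd3 mdM [(-162, -792, .tr 31 0 []),
    (-162, 792, .tr 31 0 [])]).covA 0 757 (by decide +kernel)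

def ek17_537 : List (ℤ × ℤ × Ct) :=
  [(-105, -35, .tr 31 0 []),
    (-105, -175, .tr 31 0 []),
    (-105, -210, .tr 31 0 []),
    (-105, -420, .tr 31 0 []),
    (-105, -595, .tr 31 0 []),
    (-105, 35, .tr 31 0 []),
    (-105, 175, .tr 31 0 []),
    (-105, 210, .tr 31 0 []),
    (-105, 420, .tr 31 0 []),
    (-105, 595, .tr 31 0 [])]

theorem k17_537_c0 : Cov 0 0 0 (-8160) 15 3518743
    (sr (nat_lit 2) (nat_lit 0) (sk (nat_lit 25) (tG (H3 mdM) Res 0 0 0))) 537 538 :=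
  (snd3 mdM ek17_537).rcovK (nat_lit 2) (nat_lit 0) (nat_lit 25) 537 1 (by decide +kernel)

theorem k17_537_c2 : Cov 0 0 0 (-8160) 15 3518743
    (sr (nat_lit 2) (nat_lit 1) (sk (nat_lit 25) (tG (H3 mdM) Res 0 0 0))) 537 538 :=
  (snd3 mdM ek17_537).rcovK (nat_lit 2) (nat_lit 1) (nat_lit 25) 537 1 (by decide +kernel)

theorem k17_537 : Cov 0 0 0 (-8160) 15 3518743
    (sk (nat_lit 25) (tG (H3 mdM) Res 0 0 0)) 537 538 :=
  Cov.cls 2 (by decide) fun i hi => by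
    interval_cases i
    exacts [k17_537_c0, k17_537_c2]

theorem k18_0 : Cov 0 0 1 (-631) 3 2194972623
    (tG (H3 mdM) Res 0 0 1) 0 212 :=
  (snd3 mdM [(-4, -1, .tr 31 0 []),
    (-4, -4, .tr 31 0 []),
    (-4, 2, .tr 31 0 []),
    (-4, 3, .tr 31 0 []),
    (-4, 5, .tr 31 0 []),
    (-1, -1, .tr 31 0 []),
    (-1, 0, .tr 31 0 []),
    (2, 2, .tr 31 0 [])]).cov 0 212 (by decide +kernel)

end Pool.Agent.MP_b2c033_nt.U.Ch2
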