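import Pool.Agent.MP_b2c033_nt.UC.Ch2.G20

/-! A part of the finite check. -/

namespace Pool.Agent.MP_b2c033_nt.U.Ch2

set_option maxRecDepth 100000

theorem k10_545 : Cov 1 (-1) 0 (-1710) 3 177978515
    (tG (H3 mdM) Res 1 (-1) 0) 545 570 :=
  (snd3 mdM [(-42, -100, .tr 13 0 [(18,7,1111)]),
    (-15, 26, .tr 13 0 [(45,13,749)]),
    (-6, -4, .tr 13 0 [(18,8,1111), (54,11,684), (162,22,420)]),
    (-6, 8, .tr 13 162 [(18,8,1185), (54,10,727)]),
    (-3, 3, .tr 13 54 [(18,6,1259), (36,9,890), (144,24,471), (162,25,444), (1296,74,157), (1458,84,148)])]).cov 545 25 (by decide +kernel)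

theorem k14_1847 : Cov 0 1 0 (-1890) 1 139314069
    (tG (H3 mdM) Res 0 1 0) 1847 1866 :=
  (snd3 mdM [(-41, -116, .tr 13 20 [(80,13,562)]),
    (-38, 78, .tr 31 0 []),
    (-37, -93, .nm 2 1 0 0),
    (-37, 35, .nm 2 1 0 0),
    (-35, 69, .tr 13 0 [(12,3,1451), (24,7,962), (48,11,771)]),
    (-32, 60, .tr 31 0 [(12,3,1451), (24,6,962), (48,11,726), (192,26,385)]),
    (-29, -69, .tr 13 0 [(12,3,1451), (24,6,1090), (48,14,726), (192,23,363)]),
    (-28, 48, .tr 13 0 [(400,36,267)]),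
    (-25, -57, .tr 13 0 [(20,8,1124), (80,14,562)]),
    (-25, 119, .tr 13 0 [(12,3,1451), (48,11,771)])]).cov 1847 19 (by decide +kernel)

theorem k14_1882 : Cov 0 1 0 (-1890) 1 139314069
    (tG (H3 mdM) Res 0 1 0) 1882 1885 :=
  (snd3 mdM [(-8, -6, .tr 31 0 []),
    (-8, -8, .tr 13 0 [(28,8,891), (112,16,475)]),
    (-8, -10, .tr 31 0 []),
    (-8, -13, .tr 31 0 []),
    (-8, 0, .tr 31 0 []),
    (-8, 6, .tr 31 0 [(336,38,308)]),
    (-8, 8, .tr 31 0 [(100,17,534), (400,34,267)]),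
    (-8, 16, .nm 2 0 1 4),
    (-7, -3, .tr 13 0 [(28,8,950), (112,17,505)]),
    (-7, -7, .tr 31 0 [(336,40,308)]),
    (-7, -10, .tr 31 0 [(84,16,583), (336,38,308)]),
    (-7, 2, .tr 31 0 []),
    (-7, 5, .tr 61 768 [(12,3,1451), (24,6,962), (48,10,771), (96,16,545), (192,25,408)]),
    (-6, -4, .tr 31 0 []),
    (-6, -6, .tr 31 0 []),
    (-6, -18, .tr 13 0 [(12,3,1451), (24,6,962), (48,10,680)]),
    (-6, 0, .tr 31 0 [(240,31,345)]),
    (-6, 4, .tr 61 0 [(20,10,1054), (40,9,745), (80,13,527), (320,31,299)])]).cov 1882 3 (by decide +kernel)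

theorem k15_815 : Cov 0 0 0 (-2430) 3 75418890
    (skA (tG (H3 mdM) Res 0 0 0)) 815 816 :=
  (snd3 mdM [(15, -4, .tr 31 0 []),
    (15, -7, .tr 31 0 []),
    (15, -11, .tr 31 0 []),
    (15, -18, .tr 31 0 []),
    (15, -19, .tr 31 0 []),
    (15, -21, .tr 31 0 []),
    (15, -26, .tr 31 0 []),
    (15, -38, .tr 13 0 [(36,12,890), (144,20,445), (1296,77,166)]),
    (15, 4, .tr 31 0 []),
    (15, 7, .tr 31 0 []),
    (15, 11, .tr 31 0 []),
    (15, 18, .tr 31 0 []),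
    (15, 19, .tr 31 0 []),
    (15, 21, .tr 31 0 []),
    (15, 26, .tr 31 0 []),
    (15, 38, .tr 13 0 [(36,11,838), (144,25,471), (1296,95,157)])]).covA 815 1 (by decide +kernel)

end Pool.Agent.MP_b2c033_nt.U.Ch2
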