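import Pool.Agent.MP_b2c033_nt.UC.Ch2.Spl

/-! A part of the finite check. -/

namespace Pool.Agent.MP_b2c033_nt.U.Ch2

set_option maxRecDepth 100000

theorem k16_232 : Cov 0 0 0 (-4746) 21 13841287
    (sk (nat_lit 49) (tG (H3 mdM) Res 0 0 0)) 232 236 :=
  (snd3 mdM []).covK (nat_lit 49) 232 4 (by decide +kernel)

def ek17_544 : List (ℤ × ℤ × Ct) :=
  [(0, -5, .tr 101 0 [(900,66,188), (3600,153,115), (32400,535,33)]),
    (0, -40, .tr 31 0 [(3600,147,94)]),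
    (0, -65, .tr 31 0 []),
    (0, -70, .tr 61 0 []),
    (0, -105, .tr 31 0 []),
    (0, -135, .tr 31 0 []),
    (0, -350, .tr 31 0 []),
    (0, -385, .tr 31 0 []),
    (0, -455, .tr 31 0 []),
    (0, -525, .tr 31 0 []),
    (0, -560, .tr 31 0 []),
    (0, -910, .tr 31 0 []),
    (0, -1365, .tr 31 0 []),
    (0, -1820, .tr 31 0 []),
    (0, 5, .tr 101 0 [(900,61,188), (3600,135,115), (32400,512,33)]),
    (0, 40, .tr 101 0 []),
    (0, 65, .tr 31 0 []),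
    (0, 70, .tr 61 0 []),
    (0, 105, .tr 31 0 []),
    (0, 135, .tr 31 0 []),
    (0, 350, .tr 31 0 []),
    (0, 385, .tr 31 0 []),
    (0, 455, .tr 31 0 []),
    (0, 525, .tr 31 0 []),
    (0, 560, .tr 31 0 []),
    (0, 910, .tr 31 0 []),
    (0, 1365, .tr 31 0 []),
    (0, 1820, .tr 31 0 [])]

theorem k17_544_c0 : Cov 0 0 0 (-8160) 15 3518743
    (sr (nat_lit 6) (nat_lit 0) (sk (nat_lit 25) (tG (H3 mdM) Res 0 0 0))) 544 545 :=
  (snd3 mdM ek17_544).rcovK (nat_lit 6) (nat_lit 0) (nat_lit 25) 544 1 (by decide +kernel)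

theorem k17_544_c2 : Cov 0 0 0 (-8160) 15 3518743
    (sr (nat_lit 6) (nat_lit 1) (sk (nat_lit 25) (tG (H3 mdM) Res 0 0 0))) 544 545 :=
  (snd3 mdM ek17_544).rcovK (nat_lit 6) (nat_lit 1) (nat_lit 25) 544 1 (by decide +kernel)

theorem k17_544_c4 : Cov 0 0 0 (-8160) 15 3518743
    (sr (nat_lit 6) (nat_lit 2) (sk (nat_lit 25) (tG (H3 mdM) Res 0 0 0))) 544 545 :=
  (snd3 mdM ek17_544).rcovK (nat_lit 6) (nat_lit 2) (nat_lit 25) 544 1 (by decide +kernel)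

theorem k17_544_c6 : Cov 0 0 0 (-8160) 15 3518743
    (sr (nat_lit 6) (nat_lit 3) (sk (nat_lit 25) (tG (H3 mdM) Res 0 0 0))) 544 545 :=
  (snd3 mdM ek17_544).rcovK (nat_lit 6) (nat_lit 3) (nat_lit 25) 544 1 (by decide +kernel)

theorem k17_544_c8 : Cov 0 0 0 (-8160) 15 3518743
    (sr (nat_lit 6) (nat_lit 4) (sk (nat_lit 25) (tG (H3 mdM) Res 0 0 0))) 544 545 :=
  (snd3 mdM ek17_544).rcovK (nat_lit 6) (nat_lit 4) (nat_lit 25) 544 1 (by decide +kernel)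

theorem k17_544_c10 : Cov 0 0 0 (-8160) 15 3518743
    (sr (nat_lit 6) (nat_lit 5) (ss (nat_lit 0) (sk (nat_lit 25) (tG (H3 mdM) Res 0 0 0)))) 544 545 :=
  (snd3 mdM ek17_544).scovK (nat_lit 6) (nat_lit 5) (nat_lit 0) (nat_lit 25) 544 1 (by decide +kernel)

theorem k17_544_c11 : Cov 0 0 0 (-8160) 15 3518743
    (sr (nat_lit 6) (nat_lit 5) (ss (nat_lit 1) (sk (nat_lit 25) (tG (H3 mdM) Res 0 0 0)))) 544 545 :=
  (snd3 mdM ek17_544).scovK (nat_lit 6) (nat_lit 5) (nat_lit 1) (nat_lit 25) 544 1 (by decide +kernel)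

theorem k17_544 : Cov 0 0 0 (-8160) 15 3518743
    (sk (nat_lit 25) (tG (H3 mdM) Res 0 0 0)) 544 545 :=
  Cov.cls 6 (by decide) fun i hi => by
    interval_cases i
    exacts [k17_544_c0, k17_544_c2, k17_544_c4, k17_544_c6, k17_544_c8, k17_544_c10.sgn k17_544_c11]

end Pool.Agent.MP_b2c033_nt.U.Ch2
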