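import Pool.Agent.MP_b2c033_nt.UC.Ch2.G24

/-! A part of the finite check. -/

namespace Pool.Agent.MP_b2c033_nt.U.Ch2

set_option maxRecDepth 100000

theorem k14_1893 : Cov 0 1 0 (-1890) 1 139314069
    (tG (H3 mdM) Res 0 1 0) 1893 1897 :=
  (snd3 mdM [(3, 0, .tr 31 0 []),
    (3, -1, .tr 13 44 [(176,22,403)]),
    (3, -5, .tr 13 0 [(4,1,2356), (8,2,1666), (16,5,1335), (32,9,889), (64,13,628), (256,31,334)]),
    (3, 3, .tr 61 192 [(12,3,1451), (24,6,962), (48,10,1043), (96,18,513), (768,58,204)]),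
    (3, 5, .tr 31 0 []),
    (3, 27, .tr 13 0 [(12,3,1451), (24,6,962), (48,10,771)]),
    (4, 1, .tr 31 0 []),
    (4, 0, .tr 13 0 [(60,14,689), (240,32,365)]),
    (4, -4, .tr 31 0 []),
    (4, -6, .tr 31 0 [(240,28,365)]),
    (4, 4, .pos),
    (4, 8, .tr 31 0 []),
    (4, 11, .tr 31 0 []),
    (5, 1, .tr 31 0 [(208,27,370)]),
    (5, 5, .tr 31 0 []),
    (6, 6, .tr 31 0 [(336,33,291)])]).cov 1893 4 (by decide +kernel)

def ek15_812 : List (ℤ × ℤ × Ct) :=
  [(6, 0, .tr 101 2304 [(36,10,785), (72,18,666), (144,29,471), (324,42,314), (432,47,272), (576,54,236), (648,57,222), (1296,87,157), (5184,191,79)]),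
    (6, -2, .tr 101 0 [(36,10,785), (72,17,592), (144,26,445), (324,47,314), (432,49,272), (576,56,236), (648,60,222), (1296,93,192), (2304,130,118), (5184,200,79)]),
    (6, -4, .tr 31 0 [(36,10,890), (72,13,592), (144,20,445), (324,35,297), (576,56,236), (1296,93,166), (2304,124,118)]),
    (6, -7, .tr 151 72 [(36,10,785), (144,23,445), (324,33,314), (432,39,257), (576,46,223), (648,49,222), (1296,74,157), (2304,108,118)]),
    (6, -8, .tr 31 0 [(36,9,890), (72,15,592), (144,22,445), (324,36,314), (576,54,236), (1296,100,157), (2304,130,144)]),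
    (6, -16, .tr 31 0 [(36,10,890), (144,19,471), (1296,86,157)]),
    (6, -20, .tr 31 0 [(36,10,838), (144,20,445), (1296,74,166)]),
    (6, -88, .tr 13 0 [(144,25,445), (1296,88,157)]),
    (6, 2, .tr 101 0 [(36,10,785), (72,18,629), (144,22,471), (324,33,297), (432,38,272), (576,45,223), (648,48,210), (1296,71,157), (2304,100,118), (5184,167,79)]),
    (6, 4, .tr 31 0 [(36,10,838), (72,12,629), (144,18,445), (324,31,314), (576,43,236), (1296,74,157), (2304,110,118)]),
    (6, 7, .tr 151 144 [(36,10,785), (72,18,629), (324,42,314), (432,47,272), (576,53,236), (648,56,222), (1296,77,157), (2304,105,118)]),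
    (6, 8, .tr 31 0 [(36,10,838), (72,15,629), (144,21,445), (324,35,314), (576,52,236), (1296,91,157), (2304,118,118)]),
    (6, 16, .tr 31 0 [(36,10,838), (144,18,445), (1296,71,157)]),
    (6, 20, .tr 31 0 [(36,9,890), (144,21,471), (1296,95,157)]),
    (6, 88, .tr 13 0 [(144,22,445), (1296,73,157)])]

theorem k15_812_c0 : Cov 0 0 0 (-2430) 3 75418890
    (sr (nat_lit 1) (nat_lit 0) (ss (nat_lit 0) (skA (tG (H3 mdM) Res 0 0 0)))) 812 813 :=
  (snd3 mdM ek15_812).scovA (nat_lit 1) (nat_lit 0) (nat_lit 0) 812 1 (by decide +kernel)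

theorem k15_812_c1 : Cov 0 0 0 (-2430) 3 75418890
    (sr (nat_lit 1) (nat_lit 0) (ss (nat_lit 1) (skA (tG (H3 mdM) Res 0 0 0)))) 812 813 :=
  (snd3 mdM ek15_812).scovA (nat_lit 1) (nat_lit 0) (nat_lit 1) 812 1 (by decide +kernel)

theorem k15_812 : Cov 0 0 0 (-2430) 3 75418890
    (skA (tG (H3 mdM) Res 0 0 0)) 812 813 :=
  Cov.cls 1 (by decide) fun i hi => by
    interval_cases i
    exacts [k15_812_c0.sgn k15_812_c1]

end Pool.Agent.MP_b2c033_nt.U.Ch2
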