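import Pool.Agent.MP_b2c033_nt.UC.Ch2.G35

/-! A part of the finite check. -/

namespace Pool.Agent.MP_b2c033_nt.U.Ch2

set_option maxRecDepth 100000

def ek15_808 : List (ℤ × ℤ × Ct) :=
  [(-6, 0, .tr 101 2304 [(36,11,838), (72,13,592), (144,19,445), (324,32,314), (432,39,272), (576,48,236), (648,52,222), (1296,88,157), (5184,187,79)]),
    (-6, -1, .tr 31 0 []),
    (-6, -2, .tr 31 0 [(1008,80,178)]),
    (-6, -4, .tr 101 0 [(36,11,890), (72,13,629), (108,17,484), (144,20,445), (324,33,297), (432,39,257), (576,46,236), (648,50,210), (1296,77,166), (2304,106,118), (5184,171,79)]),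
    (-6, -5, .tr 13 1008 []),
    (-6, -6, .tr 101 0 [(36,11,942), (72,14,592), (108,17,514), (144,20,445), (324,33,314), (432,40,272), (576,48,236), (648,52,222), (1296,87,157), (2304,121,144), (5184,177,79)]),
    (-6, -8, .tr 61 0 [(36,9,1204), (72,19,666), (144,23,445), (324,33,314), (576,46,223), (1296,75,157)]),
    (-6, -9, .tr 31 1008 []),
    (-6, -10, .tr 31 0 []),
    (-6, -11, .tr 31 0 []),
    (-6, -12, .tr 31 0 []),
    (-6, -14, .tr 31 0 []),
    (-6, 1, .tr 31 0 []),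
    (-6, 2, .tr 31 0 [(1008,69,178)]),
    (-6, 4, .tr 101 0 [(36,10,890), (72,13,592), (108,16,514), (144,19,445), (324,33,297), (432,40,257), (576,49,223), (648,53,222), (1296,83,166), (2304,111,118), (5184,170,79)]),
    (-6, 5, .tr 13 0 [(1008,62,178)]),
    (-6, 6, .tr 101 0 [(36,10,890), (72,13,592), (108,16,484), (144,19,445), (324,33,297), (432,40,272), (576,50,236), (648,54,222), (1296,89,157), (2304,124,118), (5184,181,79)]),
    (-6, 8, .tr 61 0 [(36,9,838), (72,14,629), (144,22,445), (324,38,297), (576,46,236), (1296,72,157)]),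
    (-6, 9, .tr 31 0 [(1008,63,178)]),
    (-6, 10, .tr 31 0 []),
    (-6, 11, .tr 31 0 []),
    (-6, 12, .tr 31 0 []),
    (-6, 14, .tr 31 0 [])]

theorem k15_808_c0 : Cov 0 0 0 (-2430) 3 75418890
    (sr (nat_lit 1) (nat_lit 0) (ss (nat_lit 0) (skA (tG (H3 mdM) Res 0 0 0)))) 808 809 :=
  (snd3 mdM ek15_808).scovA (nat_lit 1) (nat_lit 0) (nat_lit 0) 808 1 (by decide +kernel)

theorem k15_808_c1 : Cov 0 0 0 (-2430) 3 75418890
    (sr (nat_lit 1) (nat_lit 0) (ss (nat_lit 1) (skA (tG (H3 mdM) Res 0 0 0)))) 808 809 :=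
  (snd3 mdM ek15_808).scovA (nat_lit 1) (nat_lit 0) (nat_lit 1) 808 1 (by decide +kernel)

theorem k15_808 : Cov 0 0 0 (-2430) 3 75418890
    (skA (tG (H3 mdM) Res 0 0 0)) 808 809 :=
  Cov.cls 1 (by decide) fun i hi => by
    interval_cases i
    exacts [k15_808_c0.sgn k15_808_c1]

theorem k19_0 : Cov 1 (-1) 0 (-631) 3 2194972623
    (tG (H3 mdM) Res 1 (-1) 0) 0 224 :=
  (snd3 mdM [(-37, -78, .tr 13 49 []),
    (-7, -6, .tr 31 0 []),
    (-1, 0, .tr 31 0 []),
    (2, -1, .tr 31 0 []),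
    (2, -3, .tr 31 0 [])]).cov 0 224 (by decide +kernel)

end Pool.Agent.MP_b2c033_nt.U.Ch2
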