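import Pool.Agent.MP_b2c033_nt.UC.Ch2.G37

/-! A part of the finite check. -/

namespace Pool.Agent.MP_b2c033_nt.U.Ch2

set_option maxRecDepth 100000

theorem k15_800 : Cov 0 0 0 (-2430) 3 75418890
    (skA (tG (H3 mdM) Res 0 0 0)) 800 801 :=
  (snd3 mdM [(-30, -52, .tr 13 0 [(36,12,890), (144,20,445), (1296,76,166)]),
    (-30, -56, .tr 13 2304 [(36,11,890), (144,22,445), (324,44,314), (576,54,236), (1296,86,157)]),
    (-30, -61, .tr 31 0 []),
    (-30, -63, .tr 31 0 []),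
    (-30, -64, .tr 31 0 [(36,10,942), (72,17,629), (144,25,445), (324,37,297), (1296,75,157)]),
    (-30, -68, .tr 31 0 []),
    (-30, 52, .tr 13 0 [(36,11,838), (144,21,445), (1296,73,166)]),
    (-30, 56, .tr 13 2304 [(36,11,942), (144,20,445), (324,32,314), (576,46,236), (1296,78,157)]),
    (-30, 61, .tr 31 0 []),
    (-30, 63, .tr 31 0 []),
    (-30, 64, .tr 31 0 [(36,21,785), (72,13,629), (144,19,445), (324,31,297), (1296,71,157)]),
    (-30, 68, .tr 31 0 [])]).covA 800 1 (by decide +kernel)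

def ek15_806 : List (ℤ × ℤ × Ct) :=
  [(-12, 0, .tr 13 0 [(36,9,1204), (144,18,445), (1296,75,157)]),
    (-12, -2, .tr 31 0 []),
    (-12, -4, .tr 61 6480 [(720,66,211)]),
    (-12, -7, .tr 31 0 []),
    (-12, -8, .tr 61 0 [(36,11,838), (72,14,629), (144,20,445), (324,32,297), (576,46,236), (1296,79,192)]),
    (-12, -9, .tr 31 0 []),
    (-12, -11, .tr 31 0 [(720,66,211)]),
    (-12, -12, .tr 31 0 [(1008,63,178)]),
    (-12, -14, .tr 31 0 [(720,66,211)]),
    (-12, -17, .tr 31 0 []),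
    (-12, -20, .tr 13 0 [(36,10,838), (144,20,419), (1296,75,192)]),
    (-12, -23, .tr 31 0 []),
    (-12, -24, .tr 31 0 []),
    (-12, -28, .tr 31 0 []),
    (-12, -32, .tr 61 0 [(36,10,838), (72,20,666), (144,28,471), (324,39,297), (576,52,236), (1296,86,157), (2304,135,124)]),
    (-12, -33, .tr 31 0 []),
    (-12, -48, .tr 31 0 [(36,10,838), (144,24,445), (1296,93,157)]),
    (-12, -56, .tr 31 0 [(720,54,211)]),
    (-12, -61, .tr 31 0 []),
    (-12, -112, .tr 31 0 [(144,22,445)]),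
    (-12, 2, .tr 31 0 []),
    (-12, 4, .tr 61 0 [(720,53,211), (6480,202,86)]),
    (-12, 7, .tr 31 0 []),
    (-12, 8, .tr 61 0 [(36,10,838), (72,17,629), (144,23,445), (324,34,314), (576,48,236), (1296,83,157)]),
    (-12, 9, .tr 31 0 []),
    (-12, 11, .tr 31 720 []),
    (-12, 12, .tr 31 0 [(1008,63,178)]),
    (-12, 14, .tr 31 0 [(720,52,199)]),
    (-12, 17, .tr 31 0 []),
    (-12, 20, .tr 13 0 [(36,9,890), (144,18,419), (1296,83,157)]),
    (-12, 23, .tr 31 0 []),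
    (-12, 24, .tr 31 0 []),
    (-12, 28, .tr 31 0 []),
    (-12, 32, .tr 61 0 [(36,11,785), (72,15,592), (144,21,419), (324,33,297), (576,47,223), (1296,76,157), (2304,109,124)]),
    (-12, 33, .tr 31 0 []),
    (-12, 48, .tr 31 0 [(36,11,838), (144,20,445), (1296,77,157)]),
    (-12, 56, .tr 31 0 [(720,57,211)]),
    (-12, 61, .tr 31 0 []),
    (-12, 112, .tr 31 0 [(144,24,471)])]

theorem k15_806_c0 : Cov 0 0 0 (-2430) 3 75418890
    (sr (nat_lit 1) (nat_lit 0) (ss (nat_lit 0) (skA (tG (H3 mdM) Res 0 0 0)))) 806 807 :=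
  (snd3 mdM ek15_806).scovA (nat_lit 1) (nat_lit 0) (nat_lit 0) 806 1 (by decide +kernel)

theorem k15_806_c1 : Cov 0 0 0 (-2430) 3 75418890
    (sr (nat_lit 1) (nat_lit 0) (ss (nat_lit 1) (skA (tG (H3 mdM) Res 0 0 0)))) 806 807 :=
  (snd3 mdM ek15_806).scovA (nat_lit 1) (nat_lit 0) (nat_lit 1) 806 1 (by decide +kernel)

theorem k15_806 : Cov 0 0 0 (-2430) 3 75418890
    (skA (tG (H3 mdM) Res 0 0 0)) 806 807 :=
  Cov.cls 1 (by decide) fun i hi => by
    interval_cases i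
    exacts [k15_806_c0.sgn k15_806_c1]

end Pool.Agent.MP_b2c033_nt.U.Ch2
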