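import Pool.Agent.MP_b2c033_nt.UC.Ch2.G32

/-! A part of the finite check. -/

namespace Pool.Agent.MP_b2c033_nt.U.Ch2

set_option maxRecDepth 100000

theorem k8_0 : Cov 1 1 1 (-630) 1 2194972623
    (tG (H3 mdM) Res 1 1 1) 0 620 :=
  (snd3 mdM [(-80, 242, .tr 13 15 [])]).cov 0 620 (by decide +kernel)

theorem k12_1887 : Cov 0 (-1) 0 (-1890) 1 139314069
    (tG (H3 mdM) Res 0 (-1) 0) 1887 1888 :=
  (snd3 mdM [(-3, 1, .tr 31 0 []),
    (-3, 0, .tr 31 0 []),
    (-3, -1, .tr 61 256 [(4,1,2356), (8,2,1666), (16,4,1178), (32,7,944), (64,13,628), (128,22,472), (1024,69,216)]),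
    (-3, -2, .tr 31 0 []),
    (-3, -3, .tr 101 4800 [(300,35,326), (1200,85,163)]),
    (-3, -6, .tr 31 0 []),
    (-3, -9, .tr 13 768 [(12,4,1360), (24,8,1090), (48,11,771), (192,33,499)]),
    (-3, 2, .tr 13 400 [(100,17,534), (200,28,400), (1600,92,141), (6400,193,71)]),
    (-3, 3, .tr 13 0 [(12,4,1360), (24,9,962), (48,10,771), (96,15,513), (192,23,363), (768,53,204), (3072,131,102)]),
    (-3, 4, .tr 31 0 []),
    (-3, 7, .tr 31 0 [(100,15,503), (400,34,267)])]).cov 1887 1 (by decide +kernel)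

def ek15_814 : List (ℤ × ℤ × Ct) :=
  [(12, 0, .tr 13 0 [(36,9,838), (144,22,445), (1296,83,157)]),
    (12, -4, .tr 31 0 []),
    (12, -7, .tr 31 0 []),
    (12, -9, .tr 31 0 []),
    (12, -11, .tr 31 0 []),
    (12, -12, .tr 31 0 []),
    (12, -16, .tr 251 0 [(36,14,942), (72,14,592), (144,20,445), (324,33,314), (576,47,236), (1296,79,157), (2304,113,118), (5184,180,96)]),
    (12, -17, .tr 31 0 []),
    (12, -23, .tr 31 0 []),
    (12, -28, .tr 31 0 []),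
    (12, -32, .tr 31 0 [(720,54,211)]),
    (12, -33, .tr 31 0 []),
    (12, 4, .tr 31 0 []),
    (12, 7, .tr 31 0 []),
    (12, 9, .tr 31 0 []),
    (12, 11, .tr 31 0 []),
    (12, 12, .tr 31 0 []),
    (12, 16, .tr 251 0 [(36,12,890), (72,13,629), (144,20,419), (324,33,297), (576,48,223), (1296,82,157), (2304,118,144), (5184,189,79)]),
    (12, 17, .tr 31 0 []),
    (12, 23, .tr 31 0 []),
    (12, 28, .tr 31 0 []),
    (12, 32, .tr 31 0 [(720,56,211)]),
    (12, 33, .tr 31 0 [])]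

theorem k15_814_c0 : Cov 0 0 0 (-2430) 3 75418890
    (sr (nat_lit 1) (nat_lit 0) (ss (nat_lit 0) (skA (tG (H3 mdM) Res 0 0 0)))) 814 815 :=
  (snd3 mdM ek15_814).scovA (nat_lit 1) (nat_lit 0) (nat_lit 0) 814 1 (by decide +kernel)

theorem k15_814_c1 : Cov 0 0 0 (-2430) 3 75418890
    (sr (nat_lit 1) (nat_lit 0) (ss (nat_lit 1) (skA (tG (H3 mdM) Res 0 0 0)))) 814 815 :=
  (snd3 mdM ek15_814).scovA (nat_lit 1) (nat_lit 0) (nat_lit 1) 814 1 (by decide +kernel)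

theorem k15_814 : Cov 0 0 0 (-2430) 3 75418890
    (skA (tG (H3 mdM) Res 0 0 0)) 814 815 :=
  Cov.cls 1 (by decide) fun i hi => by
    interval_cases i
    exacts [k15_814_c0.sgn k15_814_c1]

end Pool.Agent.MP_b2c033_nt.U.Ch2
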