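import Pool.Agent.MP_b2c033_nt.UC.Flt3
import Pool.Agent.MP_b2c033_nt.UC.Flt4

/-! Splitting a part of the finite check into classes. -/

namespace Pool.Agent.MP_b2c033_nt.U

/-- a class attached to `|c₆|` -/
def hy (r y : ℕ) : ℕ := Nat.mod (Nat.mod (Nat.div y (nat_lit 864)) (nat_lit 101)) r

/-- a class attached to the sign of `a₆` -/
def hs (a : ℤ) : ℕ := Int.casesOn a (fun _ => nat_lit 0) fun _ => nat_lit 1

/-- the test is made only in the class `i` out of `r` classes -/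
def sr (r i : ℕ) (t : Tst) : Tst := fun a₄ C a₆ y d =>
  Bool.rec true (t a₄ C a₆ y d) (Nat.beq (hy r y) i)

/-- the test is made only for one sign -/
def ss (e : ℕ) (t : Tst) : Tst := fun a₄ C a₆ y d =>
  Bool.rec true (t a₄ C a₆ y d) (Nat.beq (hs a₆) e)

variable {H : Prop} {R : WeierstrassCurve ℤ → ℕ → Prop} {f : ℤ → ℤ → ℤ → Tst} {a₁ a₂ a₃ s : ℤ}
  {m w : ℕ}

theorem Cov.cls {t : Tst} {lo hi : ℕ} (r : ℕ) (hr : 0 < r)
    (h : ∀ i < r, Cov a₁ a₂ a₃ s m w (sr r i t) lo hi) : Cov a₁ a₂ a₃ s m w t lo hi := by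
  intro W Ω j hc hj h1 h2
  have h3 : (Bool.rec true (t.at W) (Nat.beq (hy r W.c₆.natAbs) (hy r W.c₆.natAbs)) : Bool) =
      true := h _ (Nat.mod_lt _ hr) W Ω j hc hj h1 h2
  rwa [Nat.beq_refl] at h3

theorem Cov.sgn {t : Tst} {lo hi r i : ℕ} (h₀ : Cov a₁ a₂ a₃ s m w (sr r i (ss 0 t)) lo hi)
    (h₁ : Cov a₁ a₂ a₃ s m w (sr r i (ss 1 t)) lo hi) : Cov a₁ a₂ a₃ s m w (sr r i t) lo hi := by
  intro W Ω j hc hj h1 h2
  have k : ∀ e, hs W.a₆ = e → (ss e t).at W = true → t.at W = true := fun e he h => by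
    have h3 : (Bool.rec true (t.at W) (Nat.beq (hs W.a₆) e) : Bool) = true := h
    rwa [he, Nat.beq_refl] at h3
  have h4 : hs W.a₆ = 0 ∨ hs W.a₆ = 1 := by
    cases W.a₆
    exacts [Or.inl rfl, Or.inr rfl]
  rcases h4 with h4 | h4
  · exact rec_imp (h₀ W Ω j hc hj h1 h2) (k _ h4)
  · exact rec_imp (h₁ W Ω j hc hj h1 h2) (k _ h4)

theorem Snd.rcov (hf : Snd H R f) (r i lo n : ℕ)
    (h : chunk a₁ a₂ a₃ s m w (sr r i (f a₁ a₂ a₃)) lo n = true) :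
    Cov a₁ a₂ a₃ s m w (sr r i (tG H R a₁ a₂ a₃)) lo (lo + n) := fun W Ω j hc hj h1 h2 =>
  rec_imp (cov_chunk h W Ω j hc hj h1 h2) (hf.at hc)

theorem Snd.rcovK (hf : Snd H R f) (r i q lo n : ℕ)
    (h : chunk a₁ a₂ a₃ s m w (sr r i (sk q (f a₁ a₂ a₃))) lo n = true) :
    Cov a₁ a₂ a₃ s m w (sr r i (sk q (tG H R a₁ a₂ a₃))) lo (lo + n) :=
  fun W Ω j hc hj h1 h2 =>
    rec_imp (cov_chunk h W Ω j hc hj h1 h2) fun k => rec_imp k (hf.at hc)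

theorem Snd.scovK (hf : Snd H R f) (r i e q lo n : ℕ)
    (h : chunk a₁ a₂ a₃ s m w (sr r i (ss e (sk q (f a₁ a₂ a₃)))) lo n = true) :
    Cov a₁ a₂ a₃ s m w (sr r i (ss e (sk q (tG H R a₁ a₂ a₃)))) lo (lo + n) :=
  fun W Ω j hc hj h1 h2 =>
    rec_imp (cov_chunk h W Ω j hc hj h1 h2) fun k => rec_imp k fun k => rec_imp k (hf.at hc)

theorem Snd.scovA (hf : Snd H R f) (r i e lo n : ℕ)
    (h : chunk a₁ a₂ a₃ s m w (sr r i (ss e (skA (f a₁ a₂ a₃)))) lo n = true) :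
    Cov a₁ a₂ a₃ s m w (sr r i (ss e (skA (tG H R a₁ a₂ a₃)))) lo (lo + n) :=
  fun W Ω j hc hj h1 h2 =>
    rec_imp (cov_chunk h W Ω j hc hj h1 h2) fun k => rec_imp k fun k => rec_imp k (hf.at hc)

end Pool.Agent.MP_b2c033_nt.U
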